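import Mathlib

/-!
# SMO-GP on ORDER with one HVL-Prime operation per iteration: the bound `O(n T + n² log n)` is not tight

We define the tree representation, the fitness function ORDER, the mutation operator HVL-Prime
(applied once, the case `k = 1`), the multi-objective algorithm SMO-GP, and its expected
optimization time.  We prove that the worst-case expected optimization time from a tree with `T`
leaves is at most `8 * T + 132 * n ^ 5`.
-/

namespace Pool.Agent.Results.MP_74c611_lc.SmoGpOrder

open scoped ENNReal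
open Filter

/-! ## Trees and the fitness function ORDER -/

/-- Literals: `(i, true)` is the positive literal of variable `i`, `(i, false)` the negative one. -/
abbrev Lit (n : ℕ) : Type := Fin n × Bool

/-- Nonempty binary trees whose internal nodes are the join `J` and whose leaves carry literals. -/
inductive JTree (n : ℕ) : Type
  | leaf : Lit n → JTree n
  | join : JTree n → JTree n → JTree n

/-- Candidate solutions: the empty tree `none` or a nonempty tree. -/
abbrev Sol (n : ℕ) : Type := Option (JTree n)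

variable {n : ℕ}

/-- The leaves of a tree in in-order. -/
def JTree.leaves : JTree n → List (Lit n)
  | .leaf l => [l]
  | .join A B => A.leaves ++ B.leaves

/-- The leaves of a solution in in-order. -/
def leaves : Sol n → List (Lit n)
  | none => []
  | some X => X.leaves

/-- The size: the number of leaves. -/
def size (X : Sol n) : ℕ := (leaves X).length

/-- Variable `i` is expressed: some (equivalently, the first) occurrence of the positive literal
precedes every occurrence of the negative literal. -/
def Expressed (L : List (Lit n)) (i : Fin n) : Prop :=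
  ∃ p : ℕ, L[p]? = some (i, true) ∧ ∀ q : ℕ, L[q]? = some (i, false) → p < q

open Classical in
/-- The fitness ORDER: the number of expressed variables. -/
noncomputable def fit (X : Sol n) : ℕ :=
  (Finset.univ.filter (fun i : Fin n => Expressed (leaves X) i)).card

/-! ## HVL-Prime -/

/-- All results of replacing a node `v` by a new join with children `v` and the leaf `l`,
one entry for each node `v` and each of the two orders of the children. -/
def insOut (l : Lit n) : JTree n → Multiset (JTree n)
  | .leaf a => {.join (.leaf a) (.leaf l), .join (.leaf l) (.leaf a)}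
  | .join A B => {.join (.join A B) (.leaf l), .join (.leaf l) (.join A B)} +
      ((insOut l A).map (fun A' => .join A' B) + (insOut l B).map (fun B' => .join A B'))

/-- All results of deleting a leaf (its parent is replaced by its sibling; a lone root leaf is
removed), one entry for each leaf. -/
def delOut : JTree n → Multiset (Sol n)
  | .leaf _ => {none}
  | .join A B =>
      (delOut A).map (fun o => match o with
        | none => some B
        | some A' => some (.join A' B)) +
      (delOut B).map (fun o => match o with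
        | none => some A
        | some B' => some (.join A B'))

/-- All results of substituting the literal `l` at a node, one entry for each node: a leaf becomes
the leaf `l`, an internal node stays the join. -/
def subOut (l : Lit n) : JTree n → Multiset (JTree n)
  | .leaf _ => {.leaf l}
  | .join A B => {.join A B} +
      ((subOut l A).map (fun A' => .join A' B) + (subOut l B).map (fun B' => .join A B'))

/-- The number of leaves of a nonempty tree. -/
def JTree.numLeaves (X : JTree n) : ℕ := X.leaves.length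

theorem JTree.numLeaves_pos (X : JTree n) : 0 < X.numLeaves := by
  induction X with
  | leaf l => simp [JTree.numLeaves, JTree.leaves]
  | join A B hA hB => simp only [JTree.numLeaves, JTree.leaves, List.length_append] at *; omega

theorem card_insOut (l : Lit n) (X : JTree n) :
    Multiset.card (insOut l X) + 2 = 4 * X.numLeaves := by
  induction X with
  | leaf a => simp [insOut, JTree.numLeaves, JTree.leaves]
  | join A B hA hB =>
    simp only [insOut, Multiset.card_add, Multiset.card_map, JTree.numLeaves, JTree.leaves,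
      List.length_append] at *
    simp only [Multiset.insert_eq_cons, Multiset.card_cons, Multiset.card_singleton]
    omega

theorem card_delOut (X : JTree n) : Multiset.card (delOut X) = X.numLeaves := by
  induction X with
  | leaf a => simp [delOut, JTree.numLeaves, JTree.leaves]
  | join A B hA hB =>
    simp only [delOut, Multiset.card_add, Multiset.card_map, JTree.numLeaves, JTree.leaves,
      List.length_append] at *
    omega

theorem card_subOut (l : Lit n) (X : JTree n) :
    Multiset.card (subOut l X) + 1 = 2 * X.numLeaves := by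
  induction X with
  | leaf a => simp [subOut, JTree.numLeaves, JTree.leaves]
  | join A B hA hB =>
    simp only [subOut, Multiset.card_add, Multiset.card_map, JTree.numLeaves, JTree.leaves,
      List.length_append] at *
    simp only [Multiset.card_singleton]
    omega

theorem insOut_ne_zero (l : Lit n) (X : JTree n) : insOut l X ≠ 0 := by
  intro h
  have h1 := card_insOut l X
  have h2 := X.numLeaves_pos
  rw [h, Multiset.card_zero] at h1
  omega

theorem delOut_ne_zero (X : JTree n) : delOut X ≠ 0 := by
  intro h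
  have h1 := card_delOut X
  have h2 := X.numLeaves_pos
  rw [h, Multiset.card_zero] at h1
  omega

theorem subOut_ne_zero (l : Lit n) (X : JTree n) : subOut l X ≠ 0 := by
  intro h
  have h1 := card_subOut l X
  have h2 := X.numLeaves_pos
  rw [h, Multiset.card_zero] at h1
  omega

/-- A uniformly random literal. -/
noncomputable def randLit (n : ℕ) [NeZero n] : PMF (Lit n) := PMF.uniformOfFintype (Lit n)

/-- The operation INS: uniform literal, uniform node, uniform order. -/
noncomputable def insOp [NeZero n] (X : JTree n) : PMF (Sol n) :=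
  (randLit n).bind fun l => (PMF.ofMultiset (insOut l X) (insOut_ne_zero l X)).map some

/-- The operation DEL: uniform leaf. -/
noncomputable def delOp (X : JTree n) : PMF (Sol n) :=
  PMF.ofMultiset (delOut X) (delOut_ne_zero X)

/-- The operation SUB: uniform node, uniform literal. -/
noncomputable def subOp [NeZero n] (X : JTree n) : PMF (Sol n) :=
  (randLit n).bind fun l => (PMF.ofMultiset (subOut l X) (subOut_ne_zero l X)).map some

/-- One application of HVL-Prime: the empty tree becomes a single leaf with a uniform literal;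
otherwise one of INS, DEL, SUB is chosen uniformly (as `0`, `1`, `2`) and applied. -/
noncomputable def hvl [NeZero n] : Sol n → PMF (Sol n)
  | none => (randLit n).map fun l => some (.leaf l)
  | some X => (PMF.uniformOfFintype (Fin 3)).bind fun op =>
      if op = 0 then insOp X else if op = 1 then delOp X else subOp X

/-! ## SMO-GP -/

/-- `X` weakly dominates `Y`. -/
def WDom (X Y : Sol n) : Prop := fit Y ≤ fit X ∧ size X ≤ size Y

/-- `X` strictly dominates `Y`. -/
def SDom (X Y : Sol n) : Prop := WDom X Y ∧ (fit Y < fit X ∨ size X < size Y)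

open Classical in
/-- The population after the offspring `Y` is offered to the population `P`. -/
noncomputable def update (P : Finset (Sol n)) (Y : Sol n) : Finset (Sol n) :=
  if ∃ Z ∈ P, SDom Z Y then P else insert Y (P.filter fun Z => ¬ WDom Y Z)

open Classical in
/-- One iteration of SMO-GP with one HVL-Prime operation (`k = 1`): a uniform parent from the
population, one application of HVL-Prime, and the update. (The empty population never occurs; for
totality it is fixed.) -/
noncomputable def step [NeZero n] (P : Finset (Sol n)) : PMF (Finset (Sol n)) :=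
  if hP : P.Nonempty then
    (PMF.uniformOfFinset P hP).bind fun X => (hvl X).map (update P)
  else PMF.pure P

/-- `X` is Pareto-optimal: no solution strictly dominates it. -/
def ParetoOptimal (X : Sol n) : Prop := ¬ ∃ Z : Sol n, SDom Z X

/-- The population contains, for every Pareto-optimal objective vector, a tree attaining it. -/
def Complete (P : Finset (Sol n)) : Prop :=
  ∀ X : Sol n, ParetoOptimal X → ∃ Z ∈ P, fit Z = fit X ∧ size Z = size X

open Classical in
/-- `notDone t P` is the probability that, when SMO-GP starts with the population `P`, none of the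
populations after `0, 1, …, t` iterations is complete, that is, that the optimization time
is larger than `t`. -/
noncomputable def notDone [NeZero n] : ℕ → Finset (Sol n) → ℝ≥0∞
  | 0, P => if Complete P then 0 else 1
  | t + 1, P => if Complete P then 0 else ∑' Q, step P Q * notDone t Q

/-- The expected optimization time of SMO-GP started with the population `P`:
the sum over `t ≥ 0` of the probability that the optimization time is larger than `t`. -/
noncomputable def expTime [NeZero n] (P : Finset (Sol n)) : ℝ≥0∞ := ∑' t, notDone t P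

/-- The worst-case expected optimization time over the initial trees with `T` leaves. -/
noncomputable def worstTime (n : ℕ) [NeZero n] (T : ℕ) : ℝ≥0∞ :=
  ⨆ (X : JTree n) (_ : X.numLeaves = T), expTime {(some X : Sol n)}


/-! ## Combinatorics of ORDER -/

/-- Variable `i` occurs in the list of literals. -/
def Occ (L : List (Lit n)) (i : Fin n) : Prop := ∃ l ∈ L, l.1 = i

theorem occ_cons (l : Lit n) (L : List (Lit n)) (i : Fin n) :
    Occ (l :: L) i ↔ l.1 = i ∨ Occ L i := by
  simp [Occ]

theorem occ_append (A B : List (Lit n)) (i : Fin n) :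
    Occ (A ++ B) i ↔ Occ A i ∨ Occ B i := by
  simp only [Occ, List.mem_append]
  constructor
  · rintro ⟨l, h | h, h2⟩
    · exact Or.inl ⟨l, h, h2⟩
    · exact Or.inr ⟨l, h, h2⟩
  · rintro (⟨l, h, h2⟩ | ⟨l, h, h2⟩)
    · exact ⟨l, Or.inl h, h2⟩
    · exact ⟨l, Or.inr h, h2⟩

theorem expressed_cons (l : Lit n) (L : List (Lit n)) (i : Fin n) :
    Expressed (l :: L) i ↔ l = (i, true) ∨ (l.1 ≠ i ∧ Expressed L i) := by
  constructor
  · rintro ⟨p, hp, hq⟩
    rcases p with _ | p
    · left
      simpa using hp
    · by_cases hl : l.1 = i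
      · left
        rcases l with ⟨j, b⟩
        simp only at hl
        subst hl
        rcases b with _ | _
        · have := hq 0 (by simp)
          omega
        · rfl
      · right
        refine ⟨hl, p, by simpa using hp, ?_⟩
        intro q hq'
        have := hq (q + 1) (by simpa using hq')
        omega
  · rintro (h | ⟨h1, p, hp, hq⟩)
    · refine ⟨0, by simp [h], ?_⟩
      intro q hq
      rcases q with _ | q
      · simp [h] at hq
      · omega
    · refine ⟨p + 1, by simpa using hp, ?_⟩
      intro q hq'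
      rcases q with _ | q
      · simp only [List.getElem?_cons_zero, Option.some.injEq] at hq'
        exact absurd (by rw [hq']) h1
      · have := hq q (by simpa using hq')
        omega

theorem not_expressed_nil (i : Fin n) : ¬ Expressed ([] : List (Lit n)) i := by
  rintro ⟨p, hp, _⟩
  simp at hp

theorem expressed_append (A B : List (Lit n)) (i : Fin n) :
    Expressed (A ++ B) i ↔ Expressed A i ∨ (¬ Occ A i ∧ Expressed B i) := by
  induction A with
  | nil => simp [not_expressed_nil, Occ]
  | cons a A ih =>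
    rw [List.cons_append, expressed_cons, expressed_cons, occ_cons, ih]
    tauto

theorem expressed_occ {L : List (Lit n)} {i : Fin n} (h : Expressed L i) : Occ L i := by
  induction L with
  | nil => exact absurd h (not_expressed_nil i)
  | cons a A ih =>
    rw [expressed_cons] at h
    rw [occ_cons]
    rcases h with h | ⟨_, h⟩
    · left; rw [h]
    · right; exact ih h

/-- Inserting a literal does not change the status of the other variables. -/
theorem expressed_insert_of_ne (A B : List (Lit n)) (l : Lit n) (i : Fin n) (h : l.1 ≠ i) :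
    Expressed (A ++ l :: B) i ↔ Expressed (A ++ B) i := by
  have h2 : l ≠ (i, true) := fun h3 => h (by rw [h3])
  rw [expressed_append, expressed_append, expressed_cons]
  tauto

/-- A literal whose variable occurs before it is irrelevant. -/
theorem expressed_insert_of_occ (A B : List (Lit n)) (l : Lit n) (i : Fin n) (h : Occ A l.1) :
    Expressed (A ++ l :: B) i ↔ Expressed (A ++ B) i := by
  by_cases hi : l.1 = i
  · subst hi
    rw [expressed_append, expressed_append]
    tauto
  · exact expressed_insert_of_ne A B l i hi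

open Classical in
/-- ORDER on lists of literals. -/
noncomputable def fitL (L : List (Lit n)) : ℕ :=
  (Finset.univ.filter (fun i : Fin n => Expressed L i)).card

theorem fit_eq (X : Sol n) : fit X = fitL (leaves X) := rfl

theorem fitL_le_n (L : List (Lit n)) : fitL L ≤ n := by
  classical
  calc fitL L ≤ (Finset.univ : Finset (Fin n)).card := Finset.card_filter_le _ _
    _ = n := by simp

theorem fit_le_n (X : Sol n) : fit X ≤ n := fitL_le_n _

theorem fitL_le_length (L : List (Lit n)) : fitL L ≤ L.length := by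
  classical
  calc fitL L ≤ ((L.map (fun l => l.1)).toFinset).card := by
        apply Finset.card_le_card
        intro i hi
        rw [Finset.mem_filter] at hi
        obtain ⟨l, hl, hli⟩ := expressed_occ hi.2
        rw [List.mem_toFinset, List.mem_map]
        exact ⟨l, hl, hli⟩
    _ ≤ (L.map (fun l => l.1)).length := List.toFinset_card_le _
    _ = L.length := by simp

theorem fit_le_size (X : Sol n) : fit X ≤ size X := fitL_le_length _

theorem fitL_insert_le (A B : List (Lit n)) (l : Lit n) :
    fitL (A ++ l :: B) ≤ fitL (A ++ B) + 1 := by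
  classical
  calc fitL (A ++ l :: B)
      ≤ (insert l.1 (Finset.univ.filter (fun i : Fin n => Expressed (A ++ B) i))).card := by
        apply Finset.card_le_card
        intro i hi
        rw [Finset.mem_filter] at hi
        rw [Finset.mem_insert, Finset.mem_filter]
        by_cases h : l.1 = i
        · left; exact h.symm
        · right
          exact ⟨Finset.mem_univ _, (expressed_insert_of_ne A B l i h).1 hi.2⟩
    _ ≤ fitL (A ++ B) + 1 := by
        apply (Finset.card_insert_le _ _).trans
        exact le_refl _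

theorem fitL_insert_new (A B : List (Lit n)) (i : Fin n) (h : ¬ Occ (A ++ B) i) :
    fitL (A ++ (i, true) :: B) = fitL (A ++ B) + 1 := by
  classical
  have hn : ¬ Expressed (A ++ B) i := fun h2 => h (expressed_occ h2)
  have key : (Finset.univ.filter (fun j : Fin n => Expressed (A ++ (i, true) :: B) j)) =
      insert i (Finset.univ.filter (fun j : Fin n => Expressed (A ++ B) j)) := by
    ext j
    rw [Finset.mem_insert, Finset.mem_filter, Finset.mem_filter]
    by_cases hj : i = j
    · subst hj
      rw [expressed_append, expressed_cons]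
      have : ¬ Occ A i := fun h2 => h ((occ_append A B i).2 (Or.inl h2))
      simp [this]
    · rw [expressed_insert_of_ne A B (i, true) j hj]
      have : ¬ (j = i) := fun h2 => hj h2.symm
      tauto
  unfold fitL
  rw [key, Finset.card_insert_of_notMem]
  intro h2
  rw [Finset.mem_filter] at h2
  exact hn h2.2

theorem fitL_erase_of_occ (A B : List (Lit n)) (l : Lit n) (h : Occ A l.1) :
    fitL (A ++ l :: B) = fitL (A ++ B) := by
  classical
  unfold fitL
  congr 1
  ext j
  rw [Finset.mem_filter, Finset.mem_filter, expressed_insert_of_occ A B l j h]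

/-! ## Outcomes of the operations -/

theorem mem_insOut (l : Lit n) (X Y : JTree n) (h : Y ∈ insOut l X) :
    ∃ A B, X.leaves = A ++ B ∧ Y.leaves = A ++ l :: B := by
  induction X generalizing Y with
  | leaf a =>
    simp only [insOut, Multiset.insert_eq_cons, Multiset.mem_cons, Multiset.mem_singleton] at h
    rcases h with h | h
    · subst h
      exact ⟨[a], [], by simp [JTree.leaves], by simp [JTree.leaves]⟩
    · subst h
      exact ⟨[], [a], by simp [JTree.leaves], by simp [JTree.leaves]⟩
  | join A B hA hB =>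
    simp only [insOut, Multiset.insert_eq_cons, Multiset.mem_add, Multiset.mem_cons,
      Multiset.mem_singleton, Multiset.mem_map] at h
    rcases h with (h | h) | (⟨A', hA', h⟩ | ⟨B', hB', h⟩)
    · subst h
      exact ⟨A.leaves ++ B.leaves, [], by simp [JTree.leaves], by simp [JTree.leaves]⟩
    · subst h
      exact ⟨[], A.leaves ++ B.leaves, by simp [JTree.leaves], by simp [JTree.leaves]⟩
    · subst h
      obtain ⟨C, D, h1, h2⟩ := hA A' hA'
      exact ⟨C, D ++ B.leaves, by simp [JTree.leaves, h1], by simp [JTree.leaves, h2]⟩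
    · subst h
      obtain ⟨C, D, h1, h2⟩ := hB B' hB'
      exact ⟨A.leaves ++ C, D, by simp [JTree.leaves, h1], by simp [JTree.leaves, h2]⟩

theorem mem_subOut (l : Lit n) (X Y : JTree n) (h : Y ∈ subOut l X) :
    Y.leaves.length = X.leaves.length := by
  induction X generalizing Y with
  | leaf a =>
    simp only [subOut, Multiset.mem_singleton] at h
    subst h
    simp [JTree.leaves]
  | join A B hA hB =>
    simp only [subOut, Multiset.mem_add, Multiset.mem_singleton, Multiset.mem_map] at h
    rcases h with h | (⟨A', hA', h⟩ | ⟨B', hB', h⟩)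
    · subst h; rfl
    · subst h
      simp [JTree.leaves, hA A' hA']
    · subst h
      simp [JTree.leaves, hB B' hB']

theorem map_leaves_delOut (X : JTree n) :
    (delOut X).map leaves = (Multiset.range X.leaves.length).map (fun p => X.leaves.eraseIdx p) := by
  induction X with
  | leaf a => simp [delOut, leaves, JTree.leaves]
  | join A B hA hB =>
    have e1 : ((delOut A).map (fun o => match o with
        | none => some B
        | some A' => some (.join A' B))).map leaves =
        ((delOut A).map leaves).map (fun L => L ++ B.leaves) := by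
      rw [Multiset.map_map, Multiset.map_map]
      apply Multiset.map_congr rfl
      intro o _
      rcases o with _ | A'
      · simp [leaves]
      · simp [leaves, JTree.leaves]
    have e2 : ((delOut B).map (fun o => match o with
        | none => some A
        | some B' => some (.join A B'))).map leaves =
        ((delOut B).map leaves).map (fun L => A.leaves ++ L) := by
      rw [Multiset.map_map, Multiset.map_map]
      apply Multiset.map_congr rfl
      intro o _
      rcases o with _ | A'
      · simp [leaves]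
      · simp [leaves, JTree.leaves]
    rw [delOut, Multiset.map_add, e1, e2, hA, hB, Multiset.map_map, Multiset.map_map]
    rw [JTree.leaves, List.length_append, Multiset.range_add, Multiset.map_add, Multiset.map_map]
    congr 1
    · apply Multiset.map_congr rfl
      intro p hp
      rw [Multiset.mem_range] at hp
      simp only [Function.comp_apply]
      rw [List.eraseIdx_append_of_lt_length hp]
    · apply Multiset.map_congr rfl
      intro p hp
      simp only [Function.comp_apply]
      rw [List.eraseIdx_append_of_length_le (by omega)]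
      simp


theorem not_occ_of_loss (L : List (Lit n)) (p : ℕ) (hp : p < L.length)
    (h : fitL (L.eraseIdx p) < fitL L) : ¬ Occ (L.take p) (L[p]).1 := by
  intro hocc
  have e1 : L = L.take p ++ L[p] :: L.drop (p + 1) := by
    rw [List.getElem_cons_drop, List.take_append_drop]
  have e2 : L.eraseIdx p = L.take p ++ L.drop (p + 1) := List.eraseIdx_eq_take_drop_succ L p
  have e3 := fitL_erase_of_occ (L.take p) (L.drop (p + 1)) (L[p]) hocc
  rw [← e1, ← e2] at e3
  omega

open Classical in
/-- At most `n` leaves are such that their deletion decreases the fitness. -/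
theorem countP_delOut_le (X : JTree n) :
    (delOut X).countP (fun Y => fit Y < fit (some X : Sol n)) ≤ n := by
  have h1 : (delOut X).countP (fun Y => fit Y < fit (some X : Sol n)) =
      ((delOut X).map leaves).countP (fun M => fitL M < fitL X.leaves) := by
    rw [Multiset.countP_map, Multiset.countP_eq_card_filter]
    rfl
  rw [h1, map_leaves_delOut, Multiset.countP_map]
  have h2 : Multiset.card (Multiset.filter (fun p => fitL (X.leaves.eraseIdx p) < fitL X.leaves)
      (Multiset.range X.leaves.length)) =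
      ((Finset.range X.leaves.length).filter
        (fun p => fitL (X.leaves.eraseIdx p) < fitL X.leaves)).card := rfl
  rw [h2]
  have h3 : ((Finset.range X.leaves.length).filter
        (fun p => fitL (X.leaves.eraseIdx p) < fitL X.leaves)).card ≤
        (Finset.univ : Finset (Fin n)).card := by
    apply Finset.card_le_card_of_injOn
      (fun p => if hp : p < X.leaves.length then (X.leaves[p]).1
        else (X.leaves[0]'(X.numLeaves_pos)).1)
    · intro p _
      simp
    · intro p hp q hq hpq
      simp only [Finset.coe_filter, Finset.mem_range, Set.mem_ofPred_eq] at hp hq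
      simp only [hp.1, hq.1, dif_pos] at hpq
      by_contra hne
      rcases Nat.lt_or_gt_of_ne hne with h | h
      · apply not_occ_of_loss X.leaves q hq.1 hq.2
        refine ⟨X.leaves[p], ?_, hpq⟩
        rw [List.mem_take_iff_getElem]
        exact ⟨p, by omega, rfl⟩
      · apply not_occ_of_loss X.leaves p hp.1 hp.2
        refine ⟨X.leaves[q], ?_, hpq.symm⟩
        rw [List.mem_take_iff_getElem]
        exact ⟨q, by omega, rfl⟩
  simpa using h3

theorem size_of_mem_delOut (X : JTree n) (Y : Sol n) (h : Y ∈ delOut X) :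
    size Y + 1 = size (some X : Sol n) := by
  have h1 : leaves Y ∈ (delOut X).map leaves := Multiset.mem_map_of_mem _ h
  rw [map_leaves_delOut, Multiset.mem_map] at h1
  obtain ⟨p, hp, hpe⟩ := h1
  rw [Multiset.mem_range] at hp
  show (leaves Y).length + 1 = X.leaves.length
  rw [← hpe, List.length_eraseIdx_of_lt hp]
  omega

/-! ## Expectations -/

/-- Expectation of a nonnegative function. -/
noncomputable def E {α : Type*} (p : PMF α) (f : α → ℝ≥0∞) : ℝ≥0∞ := ∑' a, p a * f a

theorem E_pure {α : Type*} (a : α) (f : α → ℝ≥0∞) : E (PMF.pure a) f = f a := by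
  unfold E
  rw [tsum_eq_single a]
  · simp
  · intro b hb
    simp [hb]

theorem E_bind {α β : Type*} (p : PMF α) (q : α → PMF β) (f : β → ℝ≥0∞) :
    E (p.bind q) f = E p (fun a => E (q a) f) := by
  unfold E
  simp only [PMF.bind_apply]
  simp_rw [← ENNReal.tsum_mul_right]
  rw [ENNReal.tsum_comm]
  congr 1
  ext a
  rw [← ENNReal.tsum_mul_left]
  congr 1
  ext b
  rw [mul_assoc]

theorem E_map {α β : Type*} (p : PMF α) (g : α → β) (f : β → ℝ≥0∞) :
    E (p.map g) f = E p (fun a => f (g a)) := by
  rw [PMF.map, E_bind]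
  congr 1
  ext a
  rw [Function.comp_apply, E_pure]

theorem E_mono {α : Type*} (p : PMF α) (f g : α → ℝ≥0∞) (h : ∀ a, f a ≤ g a) :
    E p f ≤ E p g :=
  ENNReal.tsum_le_tsum fun a => by gcongr; exact h a

theorem E_ofMultiset {α : Type*} (s : Multiset α) (hs : s ≠ 0) (f : α → ℝ≥0∞) :
    E (PMF.ofMultiset s hs) f = (s.map f).sum / Multiset.card s := by
  classical
  unfold E
  rw [tsum_eq_sum (s := s.toFinset)]
  · rw [Finset.sum_multiset_map_count, ENNReal.div_eq_inv_mul, Finset.mul_sum]
    apply Finset.sum_congr rfl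
    intro a _
    rw [PMF.ofMultiset_apply, ENNReal.div_eq_inv_mul, nsmul_eq_mul, mul_assoc]
  · intro b hb
    rw [PMF.ofMultiset_apply_of_notMem _ (by simpa using hb), zero_mul]

theorem E_uniformOfFinset {α : Type*} (s : Finset α) (hs : s.Nonempty) (f : α → ℝ≥0∞) :
    E (PMF.uniformOfFinset s hs) f = (∑ a ∈ s, f a) / s.card := by
  classical
  unfold E
  rw [tsum_eq_sum (s := s)]
  · rw [ENNReal.div_eq_inv_mul, Finset.mul_sum]
    apply Finset.sum_congr rfl
    intro a ha
    rw [PMF.uniformOfFinset_apply_of_mem hs ha]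
  · intro b hb
    rw [PMF.uniformOfFinset_apply_of_notMem hs hb, zero_mul]

theorem E_uniformOfFintype {α : Type*} [Fintype α] [Nonempty α] (f : α → ℝ≥0∞) :
    E (PMF.uniformOfFintype α) f = (∑ a, f a) / Fintype.card α := by
  unfold E
  rw [tsum_fintype, ENNReal.div_eq_inv_mul, Finset.mul_sum]
  apply Finset.sum_congr rfl
  intro a _
  rw [PMF.uniformOfFintype_apply]

theorem E_const_le {α : Type*} (p : PMF α) (f : α → ℝ≥0∞) (c : ℝ≥0∞)
    (h : ∀ a ∈ p.support, f a ≤ c) : E p f ≤ c := by
  unfold E
  calc ∑' a, p a * f a ≤ ∑' a, p a * c := by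
        apply ENNReal.tsum_le_tsum
        intro a
        by_cases ha : p a = 0
        · simp [ha]
        · gcongr
          exact h a ((PMF.mem_support_iff p a).2 ha)
    _ = c := by rw [ENNReal.tsum_mul_right, PMF.tsum_coe, one_mul]


/-! ## The drift lemma -/

theorem sum_notDone_le [NeZero n] (Inv : Finset (Sol n) → Prop) (U : Finset (Sol n) → ℝ≥0∞)
    (hInv : ∀ P, Inv P → ∀ Q ∈ (step P).support, Inv Q)
    (hU : ∀ P, Inv P → ¬ Complete P → 1 + E (step P) U ≤ U P) (N : ℕ) :
    ∀ P, Inv P → ∑ t ∈ Finset.range N, notDone t P ≤ U P := by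
  induction N with
  | zero => intro P _; simp
  | succ N ih =>
    intro P hP
    rw [Finset.sum_range_succ']
    by_cases hc : Complete P
    · have h0 : ∀ t, notDone t P = 0 := by
        intro t
        rcases t with _ | t <;> simp [notDone, hc]
      simp [h0]
    · have h0 : notDone 0 P = 1 := by simp [notDone, hc]
      have h1 : ∀ t, notDone (t + 1) P = E (step P) (notDone t) := by
        intro t
        simp [notDone, hc, E]
      rw [h0]
      simp_rw [h1]
      have h2 : ∑ t ∈ Finset.range N, E (step P) (notDone t) =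
          E (step P) (fun Q => ∑ t ∈ Finset.range N, notDone t Q) := by
        unfold E
        rw [← Summable.tsum_finsetSum (fun _ _ => ENNReal.summable)]
        congr 1
        ext Q
        rw [Finset.mul_sum]
      rw [h2, add_comm]
      refine le_trans ?_ (hU P hP hc)
      gcongr
      unfold E
      apply ENNReal.tsum_le_tsum
      intro Q
      by_cases hQ : step P Q = 0
      · simp [hQ]
      · gcongr
        exact ih Q (hInv P hP Q ((PMF.mem_support_iff _ _).2 hQ))

theorem expTime_le [NeZero n] (Inv : Finset (Sol n) → Prop) (U : Finset (Sol n) → ℝ≥0∞)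
    (hInv : ∀ P, Inv P → ∀ Q ∈ (step P).support, Inv Q)
    (hU : ∀ P, Inv P → ¬ Complete P → 1 + E (step P) U ≤ U P) (P : Finset (Sol n)) (hP : Inv P) :
    expTime P ≤ U P :=
  ENNReal.tsum_le_of_sum_range_le fun N => sum_notDone_le Inv U hInv hU N P hP

/-! ## Populations -/

/-- The populations that occur: nonempty, and no member weakly dominates another one. -/
def Good (P : Finset (Sol n)) : Prop :=
  P.Nonempty ∧ ∀ X ∈ P, ∀ Y ∈ P, WDom X Y → X = Y

theorem wdom_refl (X : Sol n) : WDom X X := ⟨le_refl _, le_refl _⟩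

theorem wdom_trans {X Y Z : Sol n} (h1 : WDom X Y) (h2 : WDom Y Z) : WDom X Z :=
  ⟨h2.1.trans h1.1, h1.2.trans h2.2⟩

theorem update_of_sdom {P : Finset (Sol n)} {Y : Sol n} (h : ∃ Z ∈ P, SDom Z Y) :
    update P Y = P := by
  unfold update
  rw [if_pos h]

theorem mem_update_of_not {P : Finset (Sol n)} {Y : Sol n} (h : ¬ ∃ Z ∈ P, SDom Z Y) (X : Sol n) :
    X ∈ update P Y ↔ X = Y ∨ (X ∈ P ∧ ¬ WDom Y X) := by
  classical
  unfold update
  rw [if_neg h]
  simp

theorem good_update {P : Finset (Sol n)} (hP : Good P) (Y : Sol n) : Good (update P Y) := by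
  by_cases h : ∃ Z ∈ P, SDom Z Y
  · rw [update_of_sdom h]; exact hP
  · refine ⟨⟨Y, (mem_update_of_not h Y).2 (Or.inl rfl)⟩, ?_⟩
    intro X hX X' hX' hd
    rw [mem_update_of_not h] at hX hX'
    rcases hX with hX | ⟨hX, hXn⟩
    · subst hX
      rcases hX' with hX' | ⟨_, hXn'⟩
      · exact hX'.symm
      · exact absurd hd hXn'
    · rcases hX' with hX' | ⟨hX', _⟩
      · subst hX'
        exfalso
        apply h
        refine ⟨X, hX, hd, ?_⟩
        by_contra hcon
        push Not at hcon
        exact hXn ⟨hcon.1, hcon.2⟩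
      · exact hP.2 X hX X' hX' hd

theorem fit_injOn {P : Finset (Sol n)} (hP : Good P) : Set.InjOn fit (P : Set (Sol n)) := by
  intro X hX Y hY h
  rcases le_total (size X) (size Y) with h1 | h1
  · exact hP.2 X hX Y hY ⟨h.ge, h1⟩
  · exact (hP.2 Y hY X hX ⟨h.le, h1⟩).symm

theorem size_injOn {P : Finset (Sol n)} (hP : Good P) : Set.InjOn size (P : Set (Sol n)) := by
  intro X hX Y hY h
  rcases le_total (fit X) (fit Y) with h1 | h1
  · exact (hP.2 Y hY X hX ⟨h1, h.ge⟩).symm
  · exact hP.2 X hX Y hY ⟨h1, h.le⟩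

theorem card_le {P : Finset (Sol n)} (hP : Good P) : P.card ≤ n + 1 := by
  classical
  have : P.card ≤ (Finset.range (n + 1)).card := by
    apply Finset.card_le_card_of_injOn fit
    · intro X _
      have := fit_le_n X
      simp only [Finset.coe_range, Set.mem_Iio]
      omega
    · exact fit_injOn hP
  simpa using this

/-- The smallest size in the population. -/
noncomputable def aP (P : Finset (Sol n)) : ℕ := sInf (size '' (P : Set (Sol n)))

/-- The largest size in the population. -/
noncomputable def bP (P : Finset (Sol n)) : ℕ := P.sup size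

/-- The largest fitness in the population. -/
noncomputable def fP (P : Finset (Sol n)) : ℕ := P.sup fit

theorem exists_bottom {P : Finset (Sol n)} (hP : P.Nonempty) : ∃ Z ∈ P, size Z = aP P := by
  have h : (size '' (P : Set (Sol n))).Nonempty := by
    obtain ⟨X, hX⟩ := hP
    exact ⟨size X, X, hX, rfl⟩
  obtain ⟨Z, hZ, hZe⟩ := Nat.sInf_mem h
  exact ⟨Z, hZ, hZe⟩

theorem aP_le {P : Finset (Sol n)} {Z : Sol n} (hZ : Z ∈ P) : aP P ≤ size Z :=
  Nat.sInf_le ⟨Z, hZ, rfl⟩

theorem le_bP {P : Finset (Sol n)} {Z : Sol n} (hZ : Z ∈ P) : size Z ≤ bP P :=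
  Finset.le_sup (f := size) hZ

theorem le_fP {P : Finset (Sol n)} {Z : Sol n} (hZ : Z ∈ P) : fit Z ≤ fP P :=
  Finset.le_sup (f := fit) hZ

theorem fP_le_n (P : Finset (Sol n)) : fP P ≤ n := Finset.sup_le fun X _ => fit_le_n X

theorem exists_top {P : Finset (Sol n)} (hP : Good P) :
    ∃ Z ∈ P, fit Z = fP P ∧ size Z = bP P := by
  obtain ⟨Z, hZ, hmax⟩ := Finset.exists_max_image P fit hP.1
  refine ⟨Z, hZ, le_antisymm (le_fP hZ) (Finset.sup_le hmax), le_antisymm (le_bP hZ) ?_⟩
  apply Finset.sup_le
  intro Y hY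
  by_contra hcon
  push Not at hcon
  have := hP.2 Z hZ Y hY ⟨hmax Y hY, hcon.le⟩
  subst this
  omega

theorem aP_le_bP {P : Finset (Sol n)} (hP : P.Nonempty) : aP P ≤ bP P := by
  obtain ⟨X, hX⟩ := hP
  exact (aP_le hX).trans (le_bP hX)

theorem aP_update {P : Finset (Sol n)} (hP : P.Nonempty) (Y : Sol n) :
    aP (update P Y) = min (aP P) (size Y) := by
  obtain ⟨Z, hZ, hZe⟩ := exists_bottom hP
  by_cases h : ∃ Z ∈ P, SDom Z Y
  · rw [update_of_sdom h]
    obtain ⟨W, hW, hd⟩ := h
    have h1 := aP_le hW
    have h2 := hd.1.2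
    omega
  · have hY : Y ∈ update P Y := (mem_update_of_not h Y).2 (Or.inl rfl)
    apply le_antisymm
    · apply le_min
      · by_cases hw : WDom Y Z
        · have h1 := aP_le hY
          have h2 := hw.2
          omega
        · have : Z ∈ update P Y := (mem_update_of_not h Z).2 (Or.inr ⟨hZ, hw⟩)
          rw [← hZe]
          exact aP_le this
      · exact aP_le hY
    · obtain ⟨W, hW, hWe⟩ := exists_bottom ⟨Y, hY⟩
      rw [← hWe]
      rw [mem_update_of_not h] at hW
      rcases hW with hW | hW
      · subst hW; exact min_le_right _ _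
      · exact (min_le_left _ _).trans (aP_le hW.1)

theorem fP_update {P : Finset (Sol n)} (Y : Sol n) :
    max (fP P) (fit Y) ≤ fP (update P Y) := by
  by_cases h : ∃ Z ∈ P, SDom Z Y
  · rw [update_of_sdom h]
    obtain ⟨W, hW, hd⟩ := h
    apply max_le le_rfl
    exact hd.1.1.trans (le_fP hW)
  · have hY : Y ∈ update P Y := (mem_update_of_not h Y).2 (Or.inl rfl)
    apply max_le
    · apply Finset.sup_le
      intro X hX
      by_cases hw : WDom Y X
      · exact hw.1.trans (le_fP hY)
      · exact le_fP ((mem_update_of_not h X).2 (Or.inr ⟨hX, hw⟩))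
    · exact le_fP hY

/-- An offspring that is not fitter than the fittest member does not increase the largest size. -/
theorem bP_update_le {P : Finset (Sol n)} (hP : Good P) (Y : Sol n) (hY : fit Y ≤ fP P) :
    bP (update P Y) ≤ bP P := by
  obtain ⟨Z, hZ, hZf, hZs⟩ := exists_top hP
  by_cases h : ∃ Z ∈ P, SDom Z Y
  · rw [update_of_sdom h]
  · apply Finset.sup_le
    intro X hX
    rw [mem_update_of_not h] at hX
    rcases hX with hX | hX
    · subst hX
      by_contra hcon
      push Not at hcon
      apply h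
      refine ⟨Z, hZ, ⟨by omega, by omega⟩, Or.inr (by omega)⟩
    · exact le_bP hX.1

/-- An offspring that is at least as fit as the fittest member, and fitter or not larger than it,
becomes the new top. -/
theorem bP_update_top {P : Finset (Sol n)} (hP : Good P) (Y : Sol n) (hY : fP P ≤ fit Y)
    (hY2 : size Y ≤ bP P ∨ fP P < fit Y) :
    bP (update P Y) ≤ size Y := by
  obtain ⟨Z, hZ, hZf, hZs⟩ := exists_top hP
  have h : ¬ ∃ Z ∈ P, SDom Z Y := by
    rintro ⟨W, hW, hd, hs⟩
    have h1 := le_fP hW
    have h2 := hd.1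
    have h3 := hd.2
    have h4 : fit W = fit Z := by omega
    have h5 : W = Z := fit_injOn hP hW hZ h4
    subst h5
    omega
  apply Finset.sup_le
  intro X hX
  rw [mem_update_of_not h] at hX
  rcases hX with hX | ⟨hX, hw⟩
  · subst hX; exact le_rfl
  · by_contra hcon
    push Not at hcon
    exact hw ⟨(le_fP hX).trans hY, hcon.le⟩


/-! ## Pareto-optimal vectors -/

theorem exists_not_occ (L : List (Lit n)) (h : L.length < n) : ∃ i : Fin n, ¬ Occ L i := by
  classical
  by_contra hcon
  push Not at hcon
  have h1 : (Finset.univ : Finset (Fin n)).card ≤ ((L.map (fun l => l.1)).toFinset).card := by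
    apply Finset.card_le_card
    intro i _
    obtain ⟨l, hl, hli⟩ := hcon i
    rw [List.mem_toFinset, List.mem_map]
    exact ⟨l, hl, hli⟩
  have h2 := List.toFinset_card_le (L.map (fun l => l.1))
  rw [List.length_map] at h2
  rw [Finset.card_univ, Fintype.card_fin] at h1
  omega

theorem exists_sol (k : ℕ) (hk : k ≤ n) : ∃ Z : Sol n, fit Z = k ∧ size Z = k := by
  induction k with
  | zero =>
    refine ⟨none, ?_, rfl⟩
    have := fit_le_size (none : Sol n)
    have h2 : size (none : Sol n) = 0 := rfl
    omega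
  | succ k ih =>
    obtain ⟨Z, hZ1, hZ2⟩ := ih (by omega)
    obtain ⟨i, hi⟩ := exists_not_occ (leaves Z) (by
      have : (leaves Z).length = k := hZ2
      omega)
    have key : fitL (leaves Z ++ [(i, true)]) = k + 1 := by
      have := fitL_insert_new (leaves Z) [] i (by simpa using hi)
      rw [List.append_nil] at this
      rw [this, ← fit_eq, hZ1]
    rcases Z with _ | X
    · refine ⟨some (.leaf (i, true)), ?_, ?_⟩
      · exact key
      · have h0 : size (none : Sol n) = 0 := rfl
        rw [h0] at hZ2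
        subst hZ2
        rfl
    · refine ⟨some (.join X (.leaf (i, true))), key, ?_⟩
      show (X.leaves ++ [(i, true)]).length = k + 1
      rw [List.length_append]
      have : X.leaves.length = k := hZ2
      simp [this]

theorem fit_eq_size_of_pareto {X : Sol n} (hX : ParetoOptimal X) : fit X = size X := by
  by_contra hne
  have h1 := fit_le_size X
  obtain ⟨Z, hZ1, hZ2⟩ := exists_sol (fit X) (fit_le_n X)
  apply hX
  exact ⟨Z, ⟨by omega, by omega⟩, Or.inr (by omega)⟩

/-- The population contains a tree with fitness and size `j`. -/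
def Has (P : Finset (Sol n)) (j : ℕ) : Prop := ∃ Z ∈ P, fit Z = j ∧ size Z = j

theorem has_update {P : Finset (Sol n)} {j : ℕ} (h : Has P j) (Y : Sol n) :
    Has (update P Y) j := by
  obtain ⟨Z, hZ, hZ1, hZ2⟩ := h
  by_cases hd : ∃ Z ∈ P, SDom Z Y
  · rw [update_of_sdom hd]; exact ⟨Z, hZ, hZ1, hZ2⟩
  · by_cases hw : WDom Y Z
    · refine ⟨Y, (mem_update_of_not hd Y).2 (Or.inl rfl), ?_⟩
      have h1 := hw.1
      have h2 := hw.2
      have h3 := fit_le_size Y
      omega
    · exact ⟨Z, (mem_update_of_not hd Z).2 (Or.inr ⟨hZ, hw⟩), hZ1, hZ2⟩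

theorem has_update_self (P : Finset (Sol n)) (Y : Sol n) (j : ℕ) (h1 : fit Y = j)
    (h2 : size Y = j) : Has (update P Y) j := by
  by_cases hd : ∃ Z ∈ P, SDom Z Y
  · obtain ⟨Z, hZ, hd1, hd2⟩ := hd
    exfalso
    have h3 := hd1.1
    have h4 := hd1.2
    have h5 := fit_le_size Z
    omega
  · exact ⟨Y, (mem_update_of_not hd Y).2 (Or.inl rfl), h1, h2⟩

open Classical in
/-- The positive levels not yet optimally represented, shifted by one. -/
noncomputable def Miss (P : Finset (Sol n)) : Finset ℕ :=
  (Finset.range n).filter fun i => ¬ Has P (i + 1)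

theorem miss_update_subset (P : Finset (Sol n)) (Y : Sol n) : Miss (update P Y) ⊆ Miss P := by
  intro i hi
  simp only [Miss, Finset.mem_filter] at hi ⊢
  exact ⟨hi.1, fun h => hi.2 (has_update h Y)⟩

theorem complete_of_miss {P : Finset (Sol n)} (hP : P.Nonempty) (ha : aP P = 0)
    (hm : Miss P = ∅) : Complete P := by
  intro X hX
  have h1 := fit_eq_size_of_pareto hX
  rcases Nat.eq_zero_or_pos (size X) with h0 | h0
  · obtain ⟨Z, hZ, hZe⟩ := exists_bottom hP
    refine ⟨Z, hZ, ?_, by omega⟩
    have := fit_le_size Z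
    omega
  · have h2 := fit_le_n X
    by_contra hcon
    have : fit X - 1 ∈ Miss P := by
      simp only [Miss, Finset.mem_filter, Finset.mem_range]
      refine ⟨by omega, ?_⟩
      rintro ⟨Z, hZ, hZ1, hZ2⟩
      exact hcon ⟨Z, hZ, by omega, by omega⟩
    rw [hm] at this
    simp at this

/-! ## Real bounds for expectations -/

theorem sum_map_le {α : Type*} (s : Multiset α) (f : α → ℝ≥0∞) (pr : α → Prop)
    [DecidablePred pr] (c1 c2 : ℝ) (h0 : 0 ≤ c1) (h12 : c1 ≤ c2)
    (h1 : ∀ a ∈ s, ¬ pr a → f a ≤ ENNReal.ofReal c1) (h2 : ∀ a ∈ s, f a ≤ ENNReal.ofReal c2) :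
    (s.map f).sum ≤ ENNReal.ofReal (Multiset.card s * c1 + s.countP pr * (c2 - c1)) := by
  induction s using Multiset.induction_on with
  | empty => simp
  | cons a s ih =>
    rw [Multiset.map_cons, Multiset.sum_cons, Multiset.card_cons, Multiset.countP_cons]
    have ih' := ih (fun b hb => h1 b (Multiset.mem_cons_of_mem hb))
      (fun b hb => h2 b (Multiset.mem_cons_of_mem hb))
    have hnn : (0 : ℝ) ≤ Multiset.card s * c1 + s.countP pr * (c2 - c1) := by
      have : 0 ≤ c2 - c1 := by linarith
      positivity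
    by_cases hp : pr a
    · rw [if_pos hp]
      calc f a + (s.map f).sum ≤ ENNReal.ofReal c2 +
            ENNReal.ofReal (Multiset.card s * c1 + s.countP pr * (c2 - c1)) :=
            add_le_add (h2 a (Multiset.mem_cons_self a s)) ih'
        _ = ENNReal.ofReal (c2 + (Multiset.card s * c1 + s.countP pr * (c2 - c1))) := by
            rw [ENNReal.ofReal_add (by linarith) hnn]
        _ = _ := by
            congr 1
            push_cast
            ring
    · rw [if_neg hp]
      calc f a + (s.map f).sum ≤ ENNReal.ofReal c1 +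
            ENNReal.ofReal (Multiset.card s * c1 + s.countP pr * (c2 - c1)) :=
            add_le_add (h1 a (Multiset.mem_cons_self a s) hp) ih'
        _ = ENNReal.ofReal (c1 + (Multiset.card s * c1 + s.countP pr * (c2 - c1))) := by
            rw [ENNReal.ofReal_add h0 hnn]
        _ = _ := by
            congr 1
            push_cast
            ring

theorem E_ofMultiset_two {α : Type*} (s : Multiset α) (hs : s ≠ 0) (f : α → ℝ≥0∞)
    (pr : α → Prop) [DecidablePred pr] (k : ℕ) (hk : s.countP pr ≤ k) (c1 c2 : ℝ) (h0 : 0 ≤ c1)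
    (h12 : c1 ≤ c2) (h1 : ∀ a ∈ s, ¬ pr a → f a ≤ ENNReal.ofReal c1)
    (h2 : ∀ a ∈ s, f a ≤ ENNReal.ofReal c2) :
    E (PMF.ofMultiset s hs) f ≤
      ENNReal.ofReal (c1 + (k : ℝ) / (Multiset.card s : ℝ) * (c2 - c1)) := by
  have hcard : 0 < Multiset.card s := Multiset.card_pos.2 hs
  rw [E_ofMultiset]
  have h3 := sum_map_le s f pr c1 c2 h0 h12 h1 h2
  have hc : (0 : ℝ) < Multiset.card s := by exact_mod_cast hcard
  calc (s.map f).sum / Multiset.card s
      ≤ ENNReal.ofReal (Multiset.card s * c1 + s.countP pr * (c2 - c1)) / Multiset.card s := by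
        gcongr
    _ = ENNReal.ofReal ((Multiset.card s * c1 + s.countP pr * (c2 - c1)) / Multiset.card s) := by
        rw [ENNReal.ofReal_div_of_pos hc, ENNReal.ofReal_natCast]
    _ ≤ _ := by
        apply ENNReal.ofReal_le_ofReal
        rw [add_div, mul_div_cancel_left₀ _ (ne_of_gt hc), mul_div_right_comm]
        have : (s.countP pr : ℝ) ≤ k := by exact_mod_cast hk
        have h4 : 0 ≤ c2 - c1 := by linarith
        gcongr


/-! ## The potential function -/

/-- The gap scale. -/
def gg (n : ℕ) : ℕ := 2 * n * (n + 1)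

/-- The gap part of the potential. -/
noncomputable def VV (n a g : ℕ) : ℝ :=
  3 / (2 * (n : ℝ)) * a * (min g (gg n) : ℕ) +
    3 * ((n : ℝ) + 1) * (∑ i ∈ Finset.range g, (gg n - i) : ℕ)

/-- The potential of a level of the largest fitness that is not yet reached. -/
noncomputable def KK (n T : ℕ) : ℝ := 3 / (2 * (n : ℝ)) * T + 3 * ((n : ℝ) + 1) * gg n

/-- The potential for large trees, as a function of the smallest size, the gap between the largest
and the smallest size, and the largest fitness. -/
noncomputable def vg (n T a g F : ℕ) : ℝ := 6 * a + VV n a g + KK n T * ((n : ℝ) - F)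

theorem VV_nonneg (n a g : ℕ) : 0 ≤ VV n a g := by unfold VV; positivity

theorem KK_nonneg (n T : ℕ) : 0 ≤ KK n T := by unfold KK; positivity

theorem VV_mono (n a : ℕ) {g g' : ℕ} (h : g ≤ g') : VV n a g ≤ VV n a g' := by
  unfold VV
  have h1 : min g (gg n) ≤ min g' (gg n) := min_le_min h le_rfl
  have h2 : ∑ i ∈ Finset.range g, (gg n - i) ≤ ∑ i ∈ Finset.range g', (gg n - i) :=
    Finset.sum_le_sum_of_subset (Finset.range_mono h)
  have h1' : ((min g (gg n) : ℕ) : ℝ) ≤ ((min g' (gg n) : ℕ) : ℝ) := by exact_mod_cast h1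
  have h2' : ((∑ i ∈ Finset.range g, (gg n - i) : ℕ) : ℝ) ≤
      ((∑ i ∈ Finset.range g', (gg n - i) : ℕ) : ℝ) := by exact_mod_cast h2
  gcongr

theorem VV_succ (n a g : ℕ) : VV n a (g + 1) = VV n a g +
    3 / (2 * (n : ℝ)) * a * (((min (g + 1) (gg n) : ℕ) : ℝ) - ((min g (gg n) : ℕ) : ℝ)) +
    3 * ((n : ℝ) + 1) * ((gg n - g : ℕ) : ℝ) := by
  unfold VV
  rw [Finset.sum_range_succ]
  push_cast
  ring

theorem VV_succ_le (n a g : ℕ) : VV n a (g + 1) ≤ VV n a g +
    (3 / (2 * (n : ℝ)) * a + 3 * ((n : ℝ) + 1) * gg n) := by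
  rw [VV_succ]
  have h1 : ((min (g + 1) (gg n) : ℕ) : ℝ) - ((min g (gg n) : ℕ) : ℝ) ≤ 1 := by
    have : min (g + 1) (gg n) ≤ min g (gg n) + 1 := by omega
    have h2 : ((min (g + 1) (gg n) : ℕ) : ℝ) ≤ ((min g (gg n) + 1 : ℕ) : ℝ) := by exact_mod_cast this
    push_cast at h2 ⊢
    linarith
  have h2 : ((gg n - g : ℕ) : ℝ) ≤ gg n := by
    have : gg n - g ≤ gg n := Nat.sub_le _ _
    exact_mod_cast this
  have h3 : 3 / (2 * (n : ℝ)) * a * (((min (g + 1) (gg n) : ℕ) : ℝ) - ((min g (gg n) : ℕ) : ℝ)) ≤
      3 / (2 * (n : ℝ)) * a * 1 := by gcongr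
  have h4 : 3 * ((n : ℝ) + 1) * ((gg n - g : ℕ) : ℝ) ≤ 3 * ((n : ℝ) + 1) * gg n := by gcongr
  linarith

theorem VV_pred (n a g : ℕ) : VV n (a + 1) g = VV n a g +
    3 / (2 * (n : ℝ)) * ((min g (gg n) : ℕ) : ℝ) := by
  unfold VV
  push_cast
  ring

theorem vg_mono (n T a : ℕ) {g g' F F' : ℕ} (hg : g ≤ g') (hF : F' ≤ F) :
    vg n T a g F ≤ vg n T a g' F' := by
  unfold vg
  have h1 := VV_mono n a hg
  have h2 := KK_nonneg n T
  have h3 : (F' : ℝ) ≤ F := by exact_mod_cast hF
  have h4 : KK n T * ((n : ℝ) - F) ≤ KK n T * ((n : ℝ) - F') := by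
    apply mul_le_mul_of_nonneg_left _ h2
    linarith
  linarith

theorem vg_nonneg (n T a g F : ℕ) (hF : F ≤ n) : 0 ≤ vg n T a g F := by
  unfold vg
  have h1 := VV_nonneg n a g
  have h2 := KK_nonneg n T
  have h3 : (F : ℝ) ≤ n := by exact_mod_cast hF
  have h4 : 0 ≤ KK n T * ((n : ℝ) - F) := mul_nonneg h2 (by linarith)
  positivity

/-- A new top level is paid for by the gain in the largest fitness. -/
theorem vg_top (n T a g F : ℕ) (ha : a ≤ T) : vg n T a (g + 1) (F + 1) ≤ vg n T a g F := by
  unfold vg
  have h1 := VV_succ_le n a g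
  have h2 : 3 / (2 * (n : ℝ)) * a ≤ 3 / (2 * (n : ℝ)) * T := by gcongr
  have h3 : KK n T = 3 / (2 * (n : ℝ)) * T + 3 * ((n : ℝ) + 1) * gg n := rfl
  push_cast
  nlinarith [h1, h2, h3]

theorem sq_bound (n a : ℕ) (hn : 1 ≤ n) (ha : (gg n) ^ 2 ≤ a) :
    (n : ℝ) / a * (3 / (2 * (n : ℝ)) * a + 3 * ((n : ℝ) + 1) * gg n) ≤ 3 := by
  have hn' : (0 : ℝ) < n := by exact_mod_cast hn
  have hg : (gg n : ℝ) = 2 * n * (n + 1) := by unfold gg; push_cast; ring
  have ha' : ((gg n : ℝ)) ^ 2 ≤ a := by exact_mod_cast ha
  have hgp : (0 : ℝ) < gg n := by rw [hg]; positivity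
  have hap : (0 : ℝ) < a := lt_of_lt_of_le (by positivity) ha'
  have e1 : (n : ℝ) / a * (3 / (2 * (n : ℝ)) * a + 3 * ((n : ℝ) + 1) * gg n) =
      3 / 2 + (3 / 2) * (gg n) ^ 2 / a := by
    have : (3 : ℝ) * (n + 1) * gg n * n = (3 / 2) * (gg n) ^ 2 := by
      rw [hg]; ring
    field_simp
    nlinarith [this]
  rw [e1]
  have : (3 / 2) * (gg n : ℝ) ^ 2 / a ≤ 3 / 2 := by
    rw [div_le_iff₀ hap]
    nlinarith
  linarith

/-- The drift inequality when there are at least two levels. -/
theorem drift_two (n T a g F : ℕ) (hn : 1 ≤ n) (ha : (gg n) ^ 2 ≤ a + 1) :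
    (vg n T a (g + 2) F - vg n T (a + 1) (g + 1) F) +
      (1 - (n : ℝ) / ((a + 1 + (g + 1) : ℕ) : ℝ)) *
        (vg n T (a + 1) g F - vg n T (a + 1) (g + 1) F) ≤ -(3 * ((n : ℝ) + 1)) := by
  have hn' : (0 : ℝ) < n := by exact_mod_cast hn
  have hg : (gg n : ℝ) = 2 * n * (n + 1) := by unfold gg; push_cast; ring
  set A : ℝ := 3 / (2 * (n : ℝ)) with hA
  set B : ℝ := 3 * ((n : ℝ) + 1) with hB
  have hAg : A * gg n = B := by rw [hA, hB, hg]; field_simp
  have hApos : 0 < A := by positivity
  have hBpos : 0 < B := by positivity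
  -- the asymmetry
  set D : ℝ := VV n (a + 1) (g + 1) - VV n (a + 1) g with hD
  have hD0 : 0 ≤ D := by have := VV_mono n (a + 1) (Nat.le_succ g); simp only [hD]; linarith
  have hD1 : D ≤ A * ((a + 1 : ℕ) : ℝ) + B * gg n := by
    have := VV_succ_le n (a + 1) g
    simp only [hD]
    linarith
  have hsq := sq_bound n (a + 1) hn ha
  have has : (n : ℝ) / ((a + 1 + (g + 1) : ℕ) : ℝ) * D ≤ 3 := by
    have hap : (0 : ℝ) < ((a + 1 : ℕ) : ℝ) := by positivity
    calc (n : ℝ) / ((a + 1 + (g + 1) : ℕ) : ℝ) * D ≤ (n : ℝ) / ((a + 1 : ℕ) : ℝ) * D := by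
          gcongr <;> omega
      _ ≤ (n : ℝ) / ((a + 1 : ℕ) : ℝ) * (A * ((a + 1 : ℕ) : ℝ) + B * gg n) := by gcongr
      _ ≤ 3 := hsq
  -- the second difference
  have e1 : vg n T a (g + 2) F - vg n T (a + 1) (g + 1) F =
      -6 - A * ((min (g + 2) (gg n) : ℕ) : ℝ) + (VV n (a + 1) (g + 2) - VV n (a + 1) (g + 1)) := by
    have := VV_pred n a (g + 2)
    unfold vg
    push_cast at this ⊢
    rw [this]
    ring
  have e2 : vg n T (a + 1) g F - vg n T (a + 1) (g + 1) F = -D := by
    simp only [hD]
    unfold vg
    ring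
  rw [e1, e2]
  have s1 := VV_succ n (a + 1) (g + 1)
  have s2 := VV_succ n (a + 1) g
  have key : - A * ((min (g + 2) (gg n) : ℕ) : ℝ) +
      (VV n (a + 1) (g + 2) - VV n (a + 1) (g + 1)) - D ≤ -B := by
    simp only [hD]
    have ht : (0 : ℝ) ≤ ((a + 1 : ℕ) : ℝ) := by positivity
    rw [show g + 2 = g + 1 + 1 from rfl, s1, s2]
    rcases Nat.lt_or_ge (g + 1) (gg n) with h | h
    · have m1 : min (g + 1 + 1) (gg n) = g + 2 := by omega
      have m2 : min (g + 1) (gg n) = g + 1 := by omega
      have m3 : min g (gg n) = g := by omega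
      have m4 : ((gg n - g : ℕ) : ℝ) = ((gg n - (g + 1) : ℕ) : ℝ) + 1 := by
        have : gg n - g = gg n - (g + 1) + 1 := by omega
        rw [this]; push_cast; ring
      rw [m1, m2, m3, m4]
      push_cast
      have : 0 ≤ A * ((g : ℝ) + 2) := by positivity
      nlinarith
    · have m1 : min (g + 1 + 1) (gg n) = gg n := by omega
      have m2 : min (g + 1) (gg n) = gg n := by omega
      have m3 : ((min g (gg n) : ℕ) : ℝ) ≤ gg n := by
        have : min g (gg n) ≤ gg n := by omega
        exact_mod_cast this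
      have m4 : gg n - (g + 1) = 0 := by omega
      rw [m1, m2, m4]
      have h5 : (0 : ℝ) ≤ ((gg n - g : ℕ) : ℝ) := by positivity
      have h6 : 0 ≤ A * ((a + 1 : ℕ) : ℝ) * ((gg n : ℝ) - ((min g (gg n) : ℕ) : ℝ)) := by
        apply mul_nonneg (by positivity)
        linarith
      have h7 : 0 ≤ B * ((gg n - g : ℕ) : ℝ) := by positivity
      push_cast at *
      nlinarith [hAg, h6, h7]
  nlinarith [key, has]

/-- The drift inequality when there is one level. -/
theorem drift_one (n T a F : ℕ) (hn : 1 ≤ n) (ha : (gg n) ^ 2 ≤ a + 1) :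
    vg n T a 0 F + (n : ℝ) / ((a + 1 : ℕ) : ℝ) * (vg n T a 1 F - vg n T a 0 F) ≤
      vg n T (a + 1) 0 F - 3 := by
  have hsq := sq_bound n (a + 1) hn ha
  have h1 := VV_succ_le n a 0
  have hn' : (0 : ℝ) < n := by exact_mod_cast hn
  have e0 : vg n T (a + 1) 0 F = vg n T a 0 F + 6 := by
    unfold vg VV
    push_cast
    simp
    ring
  have e1 : vg n T a 1 F - vg n T a 0 F = VV n a 1 - VV n a 0 := by
    unfold vg
    ring
  rw [e0, e1]
  have h2 : VV n a 1 - VV n a 0 ≤
      3 / (2 * (n : ℝ)) * ((a + 1 : ℕ) : ℝ) + 3 * ((n : ℝ) + 1) * gg n := by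
    have : 3 / (2 * (n : ℝ)) * a ≤ 3 / (2 * (n : ℝ)) * ((a + 1 : ℕ) : ℝ) := by
      gcongr
      omega
    have h0 : VV n a (0 + 1) = VV n a 1 := rfl
    linarith
  have h3 : (n : ℝ) / ((a + 1 : ℕ) : ℝ) * (VV n a 1 - VV n a 0) ≤
      (n : ℝ) / ((a + 1 : ℕ) : ℝ) * (3 / (2 * (n : ℝ)) * ((a + 1 : ℕ) : ℝ) +
        3 * ((n : ℝ) + 1) * gg n) := by gcongr
  linarith


/-! ## The drift of the potential -/

theorem mem_support_insOp [NeZero n] {X : JTree n} {Y : Sol n} (h : Y ∈ (insOp X).support) :
    ∃ l, ∃ Y' ∈ insOut l X, Y = some Y' := by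
  classical
  unfold insOp at h
  rw [PMF.mem_support_bind_iff] at h
  obtain ⟨l, _, hl⟩ := h
  rw [PMF.mem_support_map_iff] at hl
  obtain ⟨Y', hY', hYe⟩ := hl
  rw [PMF.mem_support_ofMultiset_iff, Multiset.mem_toFinset] at hY'
  exact ⟨l, Y', hY', hYe.symm⟩

theorem mem_support_subOp [NeZero n] {X : JTree n} {Y : Sol n} (h : Y ∈ (subOp X).support) :
    ∃ l, ∃ Y' ∈ subOut l X, Y = some Y' := by
  classical
  unfold subOp at h
  rw [PMF.mem_support_bind_iff] at h
  obtain ⟨l, _, hl⟩ := h
  rw [PMF.mem_support_map_iff] at hl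
  obtain ⟨Y', hY', hYe⟩ := hl
  rw [PMF.mem_support_ofMultiset_iff, Multiset.mem_toFinset] at hY'
  exact ⟨l, Y', hY', hYe.symm⟩

theorem mem_support_delOp {X : JTree n} {Y : Sol n} (h : Y ∈ (delOp X).support) :
    Y ∈ delOut X := by
  unfold delOp at h
  have h2 := (PMF.mem_support_ofMultiset_iff (delOut_ne_zero X) Y).1 h
  simpa using h2

theorem ins_facts [NeZero n] {X : JTree n} {Y : Sol n} (h : Y ∈ (insOp X).support) :
    size Y = size (some X : Sol n) + 1 ∧ fit Y ≤ fit (some X : Sol n) + 1 := by
  obtain ⟨l, Y', hY', rfl⟩ := mem_support_insOp h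
  obtain ⟨A, B, h1, h2⟩ := mem_insOut l X Y' hY'
  constructor
  · show Y'.leaves.length = X.leaves.length + 1
    rw [h1, h2]
    simp only [List.length_append, List.length_cons]
    omega
  · show fitL Y'.leaves ≤ fitL X.leaves + 1
    rw [h1, h2]
    exact fitL_insert_le A B l

theorem sub_facts [NeZero n] {X : JTree n} {Y : Sol n} (h : Y ∈ (subOp X).support) :
    size Y = size (some X : Sol n) := by
  obtain ⟨l, Y', hY', rfl⟩ := mem_support_subOp h
  exact mem_subOut l X Y' hY'

/-- Expectation over HVL-Prime of a nonempty tree. -/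
theorem E_hvl_some_le [NeZero n] (X : JTree n) (f : Sol n → ℝ≥0∞) (ci cd cs : ℝ) (hi0 : 0 ≤ ci)
    (hd0 : 0 ≤ cd) (hs0 : 0 ≤ cs) (hi : E (insOp X) f ≤ ENNReal.ofReal ci)
    (hd : E (delOp X) f ≤ ENNReal.ofReal cd) (hs : E (subOp X) f ≤ ENNReal.ofReal cs) :
    E (hvl (some X)) f ≤ ENNReal.ofReal ((ci + cd + cs) / 3) := by
  unfold hvl
  rw [E_bind, E_uniformOfFintype, Fin.sum_univ_three]
  simp only [Fintype.card_fin, if_true]
  have e1 : ¬ ((1 : Fin 3) = 0) := by decide
  have e2 : ¬ ((2 : Fin 3) = 0) := by decide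
  have e3 : ¬ ((2 : Fin 3) = 1) := by decide
  simp only [e1, e2, e3, if_false]
  rw [ENNReal.ofReal_div_of_pos (by norm_num), ENNReal.ofReal_add (by positivity) hs0,
    ENNReal.ofReal_add hi0 hd0]
  have : ENNReal.ofReal 3 = ((3 : ℕ) : ℝ≥0∞) := by
    rw [← ENNReal.ofReal_natCast]; norm_num
  rw [this]
  gcongr

/-- Combining bounds over the parents. -/
theorem step_bound [NeZero n] {P : Finset (Sol n)} (hP : P.Nonempty)
    (U : Finset (Sol n) → ℝ≥0∞) (u : ℝ) (c : Sol n → ℝ) (hc0 : ∀ Z ∈ P, 0 ≤ c Z)
    (hc : ∀ Z ∈ P, E (hvl Z) (fun Y => U (update P Y)) ≤ ENNReal.ofReal (c Z))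
    (hsum : ∑ Z ∈ P, c Z ≤ P.card * (u - 1)) :
    1 + E (step P) U ≤ ENNReal.ofReal u := by
  have hcard : (0 : ℝ) < P.card := by exact_mod_cast Finset.card_pos.2 hP
  have hu : 0 ≤ u - 1 := by
    have h1 : 0 ≤ ∑ Z ∈ P, c Z := Finset.sum_nonneg hc0
    by_contra hcon
    push Not at hcon
    nlinarith
  have e1 : E (step P) U ≤ ENNReal.ofReal (u - 1) := by
    unfold step
    rw [dif_pos hP, E_bind, E_uniformOfFinset]
    simp_rw [E_map]
    calc (∑ Z ∈ P, E (hvl Z) (fun Y => U (update P Y))) / P.card
        ≤ (∑ Z ∈ P, ENNReal.ofReal (c Z)) / P.card := by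
          gcongr with Z hZ
          exact hc Z hZ
      _ = ENNReal.ofReal ((∑ Z ∈ P, c Z) / P.card) := by
          rw [← ENNReal.ofReal_sum_of_nonneg hc0, ENNReal.ofReal_div_of_pos hcard,
            ENNReal.ofReal_natCast]
      _ ≤ ENNReal.ofReal (u - 1) := by
          apply ENNReal.ofReal_le_ofReal
          rw [div_le_iff₀ hcard]
          linarith
  calc 1 + E (step P) U ≤ 1 + ENNReal.ofReal (u - 1) := by gcongr
    _ = ENNReal.ofReal 1 + ENNReal.ofReal (u - 1) := by rw [ENNReal.ofReal_one]
    _ = ENNReal.ofReal u := by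
        rw [← ENNReal.ofReal_add (by norm_num) hu]
        congr 1
        ring

/-- The potential for small trees. -/
noncomputable def WW (P : Finset (Sol n)) : ℝ :=
  3 * ((n : ℝ) + 1) * aP P + 6 * (n : ℝ) * ((n : ℝ) + 1) * (Miss P).card

/-- The additive constant. -/
noncomputable def MM (n : ℕ) : ℝ :=
  3 * ((n : ℝ) + 1) * ((gg n) ^ 2 : ℕ) + 6 * (n : ℝ) * ((n : ℝ) + 1) * n

/-- The upper potential. -/
noncomputable def ub (T : ℕ) (P : Finset (Sol n)) : ℝ :=
  vg n T (aP P) (bP P - aP P) (fP P) + MM n

open Classical in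
/-- The full potential. -/
noncomputable def uu (T : ℕ) (P : Finset (Sol n)) : ℝ :=
  if (gg n) ^ 2 ≤ aP P then ub T P else WW P

theorem WW_nonneg (P : Finset (Sol n)) : 0 ≤ WW P := by unfold WW; positivity

theorem MM_nonneg (n : ℕ) : 0 ≤ MM n := by unfold MM; positivity

theorem card_miss_le (P : Finset (Sol n)) : (Miss P).card ≤ n := by
  classical
  calc (Miss P).card ≤ (Finset.range n).card := Finset.card_filter_le _ _
    _ = n := Finset.card_range n

theorem ub_nonneg (T : ℕ) (P : Finset (Sol n)) : 0 ≤ ub T P := by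
  unfold ub
  have := vg_nonneg n T (aP P) (bP P - aP P) (fP P) (fP_le_n P)
  have := MM_nonneg n
  linarith

theorem uu_le_ub (T : ℕ) (P : Finset (Sol n)) : uu T P ≤ ub T P := by
  unfold uu
  split_ifs with h
  · exact le_rfl
  · push Not at h
    have h1 : WW P ≤ MM n := by
      unfold WW MM
      have h2 : (aP P : ℝ) ≤ ((gg n) ^ 2 : ℕ) := by exact_mod_cast h.le
      have h3 : ((Miss P).card : ℝ) ≤ n := by exact_mod_cast card_miss_le P
      gcongr
    unfold ub
    have := vg_nonneg n T (aP P) (bP P - aP P) (fP P) (fP_le_n P)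
    linarith

theorem uu_nonneg (T : ℕ) (P : Finset (Sol n)) : 0 ≤ uu T P := by
  unfold uu
  split_ifs
  · exact ub_nonneg T P
  · exact WW_nonneg P

theorem ub_update_le (T : ℕ) {P : Finset (Sol n)} (hP : Good P) (Y : Sol n) (a g F : ℕ)
    (ha : min (aP P) (size Y) = a) (hb : bP (update P Y) ≤ a + g) (hF : F ≤ max (fP P) (fit Y)) :
    uu T (update P Y) ≤ vg n T a g F + MM n := by
  refine (uu_le_ub T _).trans ?_
  unfold ub
  have h1 := aP_update hP.1 Y
  rw [h1, ha]
  have h2 := fP_update (P := P) Y
  have := vg_mono n T a (g := bP (update P Y) - a) (g' := g) (F := fP (update P Y)) (F' := F)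
    (by omega) (by omega)
  linarith


theorem gg_pos [NeZero n] : 0 < gg n := by
  unfold gg
  have : 0 < n := Nat.pos_of_ne_zero (NeZero.ne n)
  positivity

/-- INS and SUB never increase the potential; DEL increases it for no parent except perhaps the
smallest one. -/
theorem ins_bound [NeZero n] (T : ℕ) {P : Finset (Sol n)} (hP : Good P) (hT : aP P ≤ T)
    {X : JTree n} (hX : (some X : Sol n) ∈ P) {Y : Sol n} (hY : Y ∈ (insOp X).support) :
    uu T (update P Y) ≤ ub T P := by
  obtain ⟨h1, h2⟩ := ins_facts hY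
  have h3 := aP_le hX
  have h4 := le_bP hX
  have h5 := le_fP hX
  have h6 := aP_le_bP hP.1
  by_cases hf : fit Y ≤ fP P
  · exact ub_update_le T hP Y (aP P) (bP P - aP P) (fP P) (by omega)
      (by have := bP_update_le hP Y hf; omega) (by omega)
  · push Not at hf
    obtain ⟨Z, hZ, hZf, hZs⟩ := exists_top hP
    have h7 : (some X : Sol n) = Z := fit_injOn hP hX hZ (by omega)
    have h8 : size (some X : Sol n) = bP P := by rw [h7, hZs]
    have h9 := bP_update_top hP Y hf.le (Or.inr hf)
    refine (ub_update_le T hP Y (aP P) (bP P - aP P + 1) (fP P + 1) (by omega)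
      (by omega) (by omega)).trans ?_
    unfold ub
    have := vg_top n T (aP P) (bP P - aP P) (fP P) hT
    linarith

theorem sub_bound [NeZero n] (T : ℕ) {P : Finset (Sol n)} (hP : Good P)
    {X : JTree n} (hX : (some X : Sol n) ∈ P) {Y : Sol n} (hY : Y ∈ (subOp X).support) :
    uu T (update P Y) ≤ ub T P := by
  have h1 := sub_facts hY
  have h3 := aP_le hX
  have h4 := le_bP hX
  have h5 := le_fP hX
  have h6 := aP_le_bP hP.1
  by_cases hf : fit Y ≤ fP P
  · exact ub_update_le T hP Y (aP P) (bP P - aP P) (fP P) (by omega)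
      (by have := bP_update_le hP Y hf; omega) (by omega)
  · push Not at hf
    have h9 := bP_update_top hP Y hf.le (Or.inr hf)
    exact ub_update_le T hP Y (aP P) (bP P - aP P) (fP P) (by omega)
      (by omega) (by omega)

/-- The effect of DEL on the largest size. -/
theorem del_bP [NeZero n] {P : Finset (Sol n)} (hP : Good P)
    {X : JTree n} (hX : (some X : Sol n) ∈ P) {Y : Sol n} (hY : Y ∈ delOut X) :
    bP (update P Y) ≤ bP P := by
  have h1 := size_of_mem_delOut X Y hY
  have h4 := le_bP hX
  by_cases hf : fit Y ≤ fP P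
  · exact bP_update_le hP Y hf
  · push Not at hf
    have h9 := bP_update_top hP Y hf.le (Or.inr hf)
    omega

theorem E_delOp_le (X : JTree n) (f : Sol n → ℝ≥0∞) (c : ℝ)
    (h : ∀ Y ∈ delOut X, f Y ≤ ENNReal.ofReal c) : E (delOp X) f ≤ ENNReal.ofReal c :=
  E_const_le _ _ _ fun Y hY => h Y (mem_support_delOp hY)

/-- The bound for a parent from a bound on DEL. -/
theorem hvl_bound [NeZero n] (T : ℕ) {P : Finset (Sol n)} (hP : Good P) (hT : aP P ≤ T)
    {X : JTree n} (hX : (some X : Sol n) ∈ P) (d : ℝ) (hd0 : 0 ≤ d)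
    (hd : E (delOp X) (fun Y => ENNReal.ofReal (uu T (update P Y))) ≤ ENNReal.ofReal d) :
    E (hvl (some X)) (fun Y => ENNReal.ofReal (uu T (update P Y))) ≤
      ENNReal.ofReal (ub T P + (d - ub T P) / 3) := by
  have h0 := ub_nonneg T P
  have := E_hvl_some_le X (fun Y => ENNReal.ofReal (uu T (update P Y))) (ub T P) d (ub T P) h0 hd0 h0
    (E_const_le _ _ _ fun Y hY => ENNReal.ofReal_le_ofReal (ins_bound T hP hT hX hY)) hd
    (E_const_le _ _ _ fun Y hY => ENNReal.ofReal_le_ofReal (sub_bound T hP hX hY))
  refine this.trans (ENNReal.ofReal_le_ofReal ?_)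
  linarith

theorem some_of_size {Z : Sol n} (h : 0 < size Z) : ∃ X : JTree n, Z = some X := by
  rcases Z with _ | X
  · simp [size, leaves] at h
  · exact ⟨X, rfl⟩

theorem size_some (X : JTree n) : size (some X : Sol n) = X.numLeaves := rfl

/-- The drift for large trees. -/
theorem drift_large [NeZero n] (T : ℕ) {P : Finset (Sol n)} (hP : Good P) (hT : aP P ≤ T)
    (hS : (gg n) ^ 2 ≤ aP P) :
    1 + E (step P) (fun Q => ENNReal.ofReal (uu T Q)) ≤ ENNReal.ofReal (uu T P) := by
  classical
  have hn : 1 ≤ n := Nat.pos_of_ne_zero (NeZero.ne n)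
  have hgg : 0 < (gg n) ^ 2 := by have := gg_pos (n := n); positivity
  have huu : uu T P = ub T P := by unfold uu; rw [if_pos hS]
  rw [huu]
  obtain ⟨a, ha⟩ : ∃ a, aP P = a + 1 := ⟨aP P - 1, by omega⟩
  have hS' : (gg n) ^ 2 ≤ a + 1 := by omega
  have hab := aP_le_bP hP.1
  have hu0 := ub_nonneg T P
  have hMM := MM_nonneg n
  obtain ⟨Zb, hZb, hZbs⟩ := exists_bottom hP.1
  obtain ⟨Zt, hZt, hZtf, hZts⟩ := exists_top hP
  have hFn := fP_le_n P
  rcases Nat.eq_or_lt_of_le hab with heq | hlt
  · -- one level
    have hsing : P = {Zt} := by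
      apply Finset.eq_singleton_iff_unique_mem.2
      refine ⟨hZt, ?_⟩
      intro W hW
      apply size_injOn hP hW hZt
      have h1 := aP_le hW
      have h2 := le_bP hW
      omega
    obtain ⟨X, rfl⟩ := some_of_size (Z := Zt) (by omega)
    have hub : ub T P = vg n T (a + 1) 0 (fP P) + MM n := by
      unfold ub
      rw [← heq, ha, Nat.sub_self]
    set c1 : ℝ := vg n T a 0 (fP P) + MM n with hc1
    set c2 : ℝ := vg n T a 1 (fP P) + MM n with hc2
    have h01 : 0 ≤ c1 := by
      have := vg_nonneg n T a 0 (fP P) hFn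
      simp only [hc1]; linarith
    have h12 : c1 ≤ c2 := by
      have := vg_mono n T a (g := 0) (g' := 1) (F := fP P) (F' := fP P) (by omega) le_rfl
      simp only [hc1, hc2]; linarith
    have hXs : X.numLeaves = a + 1 := by
      have := size_some X
      omega
    have hdel : E (delOp X) (fun Y => ENNReal.ofReal (uu T (update P Y))) ≤
        ENNReal.ofReal (c1 + (n : ℝ) / ((a + 1 : ℕ) : ℝ) * (c2 - c1)) := by
      have := E_ofMultiset_two (delOut X) (delOut_ne_zero X)
        (fun Y => ENNReal.ofReal (uu T (update P Y)))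
        (fun Y => fit Y < fit (some X : Sol n)) n (countP_delOut_le X) c1 c2 h01 h12 ?_ ?_
      · rw [card_delOut, hXs] at this
        exact this
      · intro Y hY hYf
        push Not at hYf
        have h1 := size_of_mem_delOut X Y hY
        apply ENNReal.ofReal_le_ofReal
        apply ub_update_le T hP Y a 0 (fP P) (by omega) _ (by omega)
        have := bP_update_top hP Y (by omega) (Or.inl (by omega))
        omega
      · intro Y hY
        have h1 := size_of_mem_delOut X Y hY
        apply ENNReal.ofReal_le_ofReal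
        apply ub_update_le T hP Y a 1 (fP P) (by omega) _ (by omega)
        have := del_bP hP hZt hY
        omega
    have hd0 : 0 ≤ c1 + (n : ℝ) / ((a + 1 : ℕ) : ℝ) * (c2 - c1) := by
      have : 0 ≤ c2 - c1 := by linarith
      positivity
    have hb := hvl_bound T hP hT hZt _ hd0 hdel
    have hdr := drift_one n T a (fP P) hn hS'
    apply step_bound hP.1 _ _ (fun _ => ub T P + (c1 + (n : ℝ) / ((a + 1 : ℕ) : ℝ) * (c2 - c1) -
      ub T P) / 3)
    · intro Z _
      linarith
    · intro Z hZ
      rw [hsing, Finset.mem_singleton] at hZ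
      subst hZ
      exact hb
    · have hcard : P.card = 1 := by rw [hsing]; exact Finset.card_singleton _
      rw [Finset.sum_const, hcard, one_nsmul, Nat.cast_one, one_mul]
      have e1 : c2 - c1 = vg n T a 1 (fP P) - vg n T a 0 (fP P) := by
        simp only [hc1, hc2]; ring
      rw [e1]
      simp only [hc1]
      rw [hub]
      linarith
  · -- at least two levels
    obtain ⟨g, hg⟩ : ∃ g, bP P - aP P = g + 1 := ⟨bP P - aP P - 1, by omega⟩
    have hbt : bP P = a + 1 + (g + 1) := by omega
    have hne : Zb ≠ Zt := by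
      intro h
      rw [h] at hZbs
      omega
    have hub : ub T P = vg n T (a + 1) (g + 1) (fP P) + MM n := by
      unfold ub
      rw [hg, ha]
    -- the bounds for DEL
    set db : ℝ := vg n T a (g + 2) (fP P) + MM n with hdb
    set c1 : ℝ := vg n T (a + 1) g (fP P) + MM n with hc1
    have h01 : 0 ≤ c1 := by
      have := vg_nonneg n T (a + 1) g (fP P) hFn
      simp only [hc1]; linarith
    have h12 : c1 ≤ ub T P := by
      have := vg_mono n T (a + 1) (g := g) (g' := g + 1) (F := fP P) (F' := fP P) (by omega) le_rfl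
      simp only [hc1]; rw [hub]; linarith
    set dt : ℝ := c1 + (n : ℝ) / ((a + 1 + (g + 1) : ℕ) : ℝ) * (ub T P - c1) with hdt
    have hdb0 : 0 ≤ db := by
      have := vg_nonneg n T a (g + 2) (fP P) hFn
      simp only [hdb]; linarith
    have hdt0 : 0 ≤ dt := by
      have : 0 ≤ ub T P - c1 := by linarith
      simp only [hdt]
      positivity
    apply step_bound hP.1 _ _ (fun Z => ub T P + (if Z = Zb then (db - ub T P) / 3 else 0) +
      (if Z = Zt then (dt - ub T P) / 3 else 0))
    · intro Z _
      by_cases h1 : Z = Zb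
      · have h2 : Z ≠ Zt := by rw [h1]; exact hne
        simp only [h1, hne, if_true, if_false]
        linarith
      · by_cases h2 : Z = Zt
        · simp only [h2, hne.symm, if_true, if_false]
          linarith
        · simp only [h1, h2, if_false]
          linarith
    · intro Z hZ
      have hZs : aP P ≤ size Z := aP_le hZ
      obtain ⟨X, rfl⟩ := some_of_size (Z := Z) (by omega)
      have hXs := size_some X
      by_cases h1 : (some X : Sol n) = Zb
      · have h2 : ¬ (some X : Sol n) = Zt := by rw [h1]; exact hne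
        simp only [h1, hne, if_true, if_false, add_zero]
        rw [← h1]
        apply hvl_bound T hP hT hZ _ hdb0
        apply E_delOp_le
        intro Y hY
        have h3 := size_of_mem_delOut X Y hY
        rw [h1] at h3
        apply ENNReal.ofReal_le_ofReal
        apply ub_update_le T hP Y a (g + 2) (fP P) (by omega) _ (by omega)
        have := del_bP hP hZ hY
        omega
      · have hgt : aP P < size (some X : Sol n) := by
          rcases Nat.eq_or_lt_of_le hZs with h | h
          · exfalso
            apply h1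
            exact size_injOn hP hZ hZb (by omega)
          · exact h
        by_cases h2 : (some X : Sol n) = Zt
        · simp only [h2, hne.symm, if_true, if_false, add_zero]
          rw [← h2]
          apply hvl_bound T hP hT hZ _ hdt0
          have hXl : X.numLeaves = a + 1 + (g + 1) := by
            rw [← hXs, h2, hZts, hbt]
          have := E_ofMultiset_two (delOut X) (delOut_ne_zero X)
            (fun Y => ENNReal.ofReal (uu T (update P Y)))
            (fun Y => fit Y < fit (some X : Sol n)) n (countP_delOut_le X) c1 (ub T P) h01 h12 ?_ ?_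
          · rw [card_delOut, hXl] at this
            exact this
          · intro Y hY hYf
            push Not at hYf
            have h3 := size_of_mem_delOut X Y hY
            rw [h2] at h3 hYf
            apply ENNReal.ofReal_le_ofReal
            apply ub_update_le T hP Y (a + 1) g (fP P) (by omega) _ (by omega)
            have := bP_update_top hP Y (by omega) (Or.inl (by omega))
            omega
          · intro Y hY
            have h3 := size_of_mem_delOut X Y hY
            rw [h2] at h3
            apply ENNReal.ofReal_le_ofReal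
            rw [hub]
            apply ub_update_le T hP Y (a + 1) (g + 1) (fP P) (by omega) _ (by omega)
            have := del_bP hP hZ hY
            omega
        · simp only [h1, h2, if_false, add_zero]
          have := hvl_bound T hP hT hZ (ub T P) hu0 ?_
          · simpa using this
          · apply E_delOp_le
            intro Y hY
            have h3 := size_of_mem_delOut X Y hY
            apply ENNReal.ofReal_le_ofReal
            rw [hub]
            apply ub_update_le T hP Y (a + 1) (g + 1) (fP P) (by omega) _ (by omega)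
            have := del_bP hP hZ hY
            omega
    · rw [Finset.sum_add_distrib, Finset.sum_add_distrib, Finset.sum_const,
        Finset.sum_ite_eq' P Zb, Finset.sum_ite_eq' P Zt, if_pos hZb, if_pos hZt, nsmul_eq_mul]
      have hdr := drift_two n T a g (fP P) hn hS'
      have hcard : (P.card : ℝ) ≤ n + 1 := by exact_mod_cast card_le hP
      have key : (db - ub T P) + (dt - ub T P) ≤ -(3 * ((n : ℝ) + 1)) := by
        simp only [hdb, hdt, hc1]
        rw [hub]
        linarith
      linarith


/-! ## Small trees -/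

theorem WW_update_le {P : Finset (Sol n)} (hP : P.Nonempty) (Y : Sol n) :
    WW (update P Y) ≤ WW P := by
  unfold WW
  have h1 : aP (update P Y) ≤ aP P := by rw [aP_update hP]; exact min_le_left _ _
  have h2 : (Miss (update P Y)).card ≤ (Miss P).card := Finset.card_le_card (miss_update_subset P Y)
  have h1' : (aP (update P Y) : ℝ) ≤ aP P := by exact_mod_cast h1
  have h2' : ((Miss (update P Y)).card : ℝ) ≤ (Miss P).card := by exact_mod_cast h2
  gcongr

theorem WW_update_lt {P : Finset (Sol n)} (hP : P.Nonempty) (Y : Sol n) (j : ℕ) (hj : j ∈ Miss P)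
    (h1 : fit Y = j + 1) (h2 : size Y = j + 1) :
    WW (update P Y) ≤ WW P - 6 * (n : ℝ) * ((n : ℝ) + 1) := by
  unfold WW
  have h3 : aP (update P Y) ≤ aP P := by rw [aP_update hP]; exact min_le_left _ _
  have h4 : (Miss (update P Y)).card + 1 ≤ (Miss P).card := by
    apply Finset.card_lt_card
    refine ⟨miss_update_subset P Y, ?_⟩
    intro hsub
    have := hsub hj
    simp only [Miss, Finset.mem_filter] at this
    exact this.2 (has_update_self P Y (j + 1) h1 h2)
  have h3' : (aP (update P Y) : ℝ) ≤ aP P := by exact_mod_cast h3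
  have h4' : ((Miss (update P Y)).card : ℝ) + 1 ≤ (Miss P).card := by exact_mod_cast h4
  have h5 : 3 * ((n : ℝ) + 1) * (aP (update P Y) : ℝ) ≤ 3 * ((n : ℝ) + 1) * aP P := by gcongr
  have h6 : 6 * (n : ℝ) * ((n : ℝ) + 1) * (((Miss (update P Y)).card : ℝ) + 1) ≤
      6 * (n : ℝ) * ((n : ℝ) + 1) * (Miss P).card := by gcongr
  linarith

theorem uu_update_small {T : ℕ} {P : Finset (Sol n)} (hP : P.Nonempty) (hS : aP P < (gg n) ^ 2)
    (Y : Sol n) : uu T (update P Y) = WW (update P Y) := by
  have h1 : aP (update P Y) ≤ aP P := by rw [aP_update hP]; exact min_le_left _ _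
  unfold uu
  rw [if_neg (by omega)]

theorem E_randLit_le [NeZero n] (f : Lit n → ℝ≥0∞) (l0 : Lit n) (c1 c2 : ℝ) (h0 : 0 ≤ c1)
    (h12 : c1 ≤ c2) (h1 : f l0 ≤ ENNReal.ofReal c1) (h2 : ∀ l, f l ≤ ENNReal.ofReal c2) :
    E (randLit n) f ≤ ENNReal.ofReal (c2 - (c2 - c1) / (2 * (n : ℝ))) := by
  classical
  have hn : 1 ≤ n := Nat.pos_of_ne_zero (NeZero.ne n)
  have hn' : (0 : ℝ) < n := by exact_mod_cast hn
  unfold randLit
  rw [E_uniformOfFintype]
  have hsum : ∑ l, f l ≤ ENNReal.ofReal (∑ l : Lit n, if l = l0 then c1 else c2) := by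
    rw [ENNReal.ofReal_sum_of_nonneg]
    · apply Finset.sum_le_sum
      intro l _
      by_cases h : l = l0
      · rw [if_pos h, h]; exact h1
      · rw [if_neg h]; exact h2 l
    · intro l _
      split_ifs
      · exact h0
      · linarith
  have hcardN : Fintype.card (Lit n) = 2 * n := by
    simp [Fintype.card_prod]
    ring
  have hval : (∑ l : Lit n, if l = l0 then c1 else c2) = 2 * n * c2 - (c2 - c1) := by
    have : ∀ l : Lit n, (if l = l0 then c1 else c2) = c2 + (if l = l0 then (c1 - c2) else 0) := by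
      intro l
      split_ifs <;> ring
    simp_rw [this]
    rw [Finset.sum_add_distrib, Finset.sum_const, Finset.sum_ite_eq' Finset.univ l0,
      if_pos (Finset.mem_univ _), Finset.card_univ, hcardN, nsmul_eq_mul]
    push_cast
    ring
  calc (∑ l, f l) / (Fintype.card (Lit n) : ℝ≥0∞)
      ≤ ENNReal.ofReal (2 * n * c2 - (c2 - c1)) / (Fintype.card (Lit n) : ℝ≥0∞) := by
        rw [← hval]; gcongr
    _ = ENNReal.ofReal ((2 * n * c2 - (c2 - c1)) / (2 * n : ℝ)) := by
        rw [hcardN, ENNReal.ofReal_div_of_pos (by positivity)]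
        congr 1
        rw [← ENNReal.ofReal_natCast]
        push_cast
        rfl
    _ = _ := by
        congr 1
        field_simp

theorem E_insOp [NeZero n] (X : JTree n) (f : Sol n → ℝ≥0∞) :
    E (insOp X) f = E (randLit n) (fun l =>
      E (PMF.ofMultiset (insOut l X) (insOut_ne_zero l X)) (fun Y => f (some Y))) := by
  unfold insOp
  rw [E_bind]
  congr 1
  ext l
  rw [E_map]

/-- A parent of fitness and size `j` creates, with a good chance, one of fitness and size
`j + 1`. -/
theorem small_special [NeZero n] (T : ℕ) {P : Finset (Sol n)} (hP : Good P)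
    (hS : aP P < (gg n) ^ 2) (j : ℕ) (hj : j ∈ Miss P) (Z : Sol n)
    (h1 : fit Z = j) (h2 : size Z = j) :
    E (hvl Z) (fun Y => ENNReal.ofReal (uu T (update P Y))) ≤
      ENNReal.ofReal (WW P - ((n : ℝ) + 1)) := by
  have hn : 1 ≤ n := Nat.pos_of_ne_zero (NeZero.ne n)
  have hn' : (0 : ℝ) < n := by exact_mod_cast hn
  have hjn : j < n := by
    simp only [Miss, Finset.mem_filter, Finset.mem_range] at hj
    exact hj.1
  obtain ⟨i, hi⟩ := exists_not_occ (leaves Z) (by
    have : (leaves Z).length = j := h2
    omega)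
  have hW0 : 6 * (n : ℝ) * ((n : ℝ) + 1) ≤ WW P := by
    unfold WW
    have h3 : 1 ≤ (Miss P).card := Finset.card_pos.2 ⟨j, hj⟩
    have h3' : (1 : ℝ) ≤ (Miss P).card := by exact_mod_cast h3
    have h4 : 6 * (n : ℝ) * ((n : ℝ) + 1) * 1 ≤ 6 * (n : ℝ) * ((n : ℝ) + 1) * (Miss P).card := by
      gcongr
    have h5 : 0 ≤ 3 * ((n : ℝ) + 1) * (aP P : ℝ) := by positivity
    linarith
  have hle : ∀ Y : Sol n, ENNReal.ofReal (uu T (update P Y)) ≤ ENNReal.ofReal (WW P) := by
    intro Y
    apply ENNReal.ofReal_le_ofReal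
    rw [uu_update_small hP.1 hS]
    exact WW_update_le hP.1 Y
  have hgood : ∀ Y : Sol n, fit Y = j + 1 → size Y = j + 1 →
      ENNReal.ofReal (uu T (update P Y)) ≤
        ENNReal.ofReal (WW P - 6 * (n : ℝ) * ((n : ℝ) + 1)) := by
    intro Y hY1 hY2
    apply ENNReal.ofReal_le_ofReal
    rw [uu_update_small hP.1 hS]
    exact WW_update_lt hP.1 Y j hj hY1 hY2
  have hc : WW P - (WW P - (WW P - 6 * (n : ℝ) * ((n : ℝ) + 1))) / (2 * (n : ℝ)) =
      WW P - 3 * ((n : ℝ) + 1) := by
    field_simp
    ring
  have hsmall : 3 * ((n : ℝ) + 1) ≤ WW P := by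
    have : (1 : ℝ) ≤ n := by exact_mod_cast hn
    nlinarith
  rcases Z with _ | X
  · have h0 : size (none : Sol n) = 0 := rfl
    rw [h0] at h2
    subst h2
    unfold hvl
    rw [E_map]
    have := E_randLit_le (fun l => ENNReal.ofReal (uu T (update P (some (.leaf l))))) (i, true)
      (WW P - 6 * (n : ℝ) * ((n : ℝ) + 1)) (WW P) (by linarith)
      (by have : 0 ≤ 6 * (n : ℝ) * ((n : ℝ) + 1) := by positivity
          linarith)
      (hgood _ ?_ rfl) (fun l => hle _)
    · refine this.trans (ENNReal.ofReal_le_ofReal ?_)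
      rw [hc]
      linarith
    · have := fitL_insert_new [] [] i (by simp [Occ])
      rw [List.nil_append] at this
      show fitL [(i, true)] = 0 + 1
      rw [this]
      have h0 : fitL ([] ++ [] : List (Lit n)) ≤ 0 := fitL_le_length _
      omega
  · have hins : E (insOp X) (fun Y => ENNReal.ofReal (uu T (update P Y))) ≤
        ENNReal.ofReal (WW P - 3 * ((n : ℝ) + 1)) := by
      rw [E_insOp, ← hc]
      apply E_randLit_le _ (i, true)
      · linarith
      · have : 0 ≤ 6 * (n : ℝ) * ((n : ℝ) + 1) := by positivity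
        linarith
      · apply E_const_le
        intro Y hY
        have hY' : Y ∈ insOut (i, true) X := by
          classical
          exact Multiset.mem_toFinset.1 ((PMF.mem_support_ofMultiset_iff _ _).1 hY)
        obtain ⟨A, B, hA, hB⟩ := mem_insOut (i, true) X Y hY'
        apply hgood
        · show fitL Y.leaves = j + 1
          have h3 : leaves (some X : Sol n) = A ++ B := hA
          rw [h3] at hi
          rw [hB, fitL_insert_new A B i hi]
          have : fitL (A ++ B) = j := by rw [← h3]; exact h1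
          rw [this]
        · show Y.leaves.length = j + 1
          have h3 : X.leaves.length = j := h2
          rw [hA] at h3
          rw [hB]
          simp only [List.length_append, List.length_cons] at *
          omega
      · intro l
        exact E_const_le _ _ _ fun Y _ => hle _
    have := E_hvl_some_le X (fun Y => ENNReal.ofReal (uu T (update P Y)))
      (WW P - 3 * ((n : ℝ) + 1)) (WW P) (WW P) (by linarith) (WW_nonneg P) (WW_nonneg P) hins
      (E_const_le _ _ _ fun Y _ => hle Y) (E_const_le _ _ _ fun Y _ => hle Y)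
    refine this.trans (ENNReal.ofReal_le_ofReal ?_)
    linarith

theorem drift_small [NeZero n] (T : ℕ) {P : Finset (Sol n)} (hP : Good P)
    (hS : aP P < (gg n) ^ 2) (hc : ¬ Complete P) :
    1 + E (step P) (fun Q => ENNReal.ofReal (uu T Q)) ≤ ENNReal.ofReal (uu T P) := by
  classical
  have hn : 1 ≤ n := Nat.pos_of_ne_zero (NeZero.ne n)
  have hn' : (0 : ℝ) < n := by exact_mod_cast hn
  have huu : uu T P = WW P := by unfold uu; rw [if_neg (by omega)]
  rw [huu]
  have hle : ∀ Y : Sol n, ENNReal.ofReal (uu T (update P Y)) ≤ ENNReal.ofReal (WW P) := by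
    intro Y
    apply ENNReal.ofReal_le_ofReal
    rw [uu_update_small hP.1 hS]
    exact WW_update_le hP.1 Y
  -- a special parent
  obtain ⟨Z0, hZ0, hW, hE⟩ : ∃ Z0 ∈ P, ((n : ℝ) + 1) ≤ WW P ∧
      E (hvl Z0) (fun Y => ENNReal.ofReal (uu T (update P Y))) ≤
        ENNReal.ofReal (WW P - ((n : ℝ) + 1)) := by
    rcases Nat.eq_zero_or_pos (aP P) with ha | ha
    · -- the empty tree has been found
      have hne : (Miss P).Nonempty := by
        by_contra hcon
        rw [Finset.not_nonempty_iff_eq_empty] at hcon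
        exact hc (complete_of_miss hP.1 ha hcon)
      set j := (Miss P).min' hne with hjdef
      have hj : j ∈ Miss P := Finset.min'_mem _ _
      have hWb : ((n : ℝ) + 1) ≤ WW P := by
        unfold WW
        have h3 : 1 ≤ (Miss P).card := Finset.card_pos.2 hne
        have h3' : (1 : ℝ) ≤ (Miss P).card := by exact_mod_cast h3
        have h4 : 6 * (n : ℝ) * ((n : ℝ) + 1) * 1 ≤
            6 * (n : ℝ) * ((n : ℝ) + 1) * (Miss P).card := by gcongr
        have h5 : 0 ≤ 3 * ((n : ℝ) + 1) * (aP P : ℝ) := by positivity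
        have h6 : (1 : ℝ) ≤ n := by exact_mod_cast hn
        nlinarith
      have hhas : Has P j := by
        rcases Nat.eq_zero_or_pos j with h0 | h0
        · obtain ⟨Z, hZ, hZe⟩ := exists_bottom hP.1
          refine ⟨Z, hZ, ?_, by omega⟩
          have := fit_le_size Z
          omega
        · by_contra hcon
          have h7 : j - 1 ∈ Miss P := by
            simp only [Miss, Finset.mem_filter, Finset.mem_range] at hj ⊢
            refine ⟨by omega, ?_⟩
            rwa [Nat.sub_add_cancel h0]
          have := Finset.min'_le _ _ h7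
          omega
      obtain ⟨Z, hZ, hZ1, hZ2⟩ := hhas
      exact ⟨Z, hZ, hWb, small_special T hP hS j hj Z hZ1 hZ2⟩
    · -- the smallest tree can be shortened
      obtain ⟨Z, hZ, hZe⟩ := exists_bottom hP.1
      have hWb : 3 * ((n : ℝ) + 1) ≤ WW P := by
        unfold WW
        have h3' : (1 : ℝ) ≤ aP P := by exact_mod_cast ha
        have h4 : 3 * ((n : ℝ) + 1) * 1 ≤ 3 * ((n : ℝ) + 1) * (aP P : ℝ) := by gcongr
        have h5 : 0 ≤ 6 * (n : ℝ) * ((n : ℝ) + 1) * (Miss P).card := by positivity
        linarith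
      refine ⟨Z, hZ, by nlinarith, ?_⟩
      obtain ⟨X, rfl⟩ := some_of_size (Z := Z) (by omega)
      have hdel : E (delOp X) (fun Y => ENNReal.ofReal (uu T (update P Y))) ≤
          ENNReal.ofReal (WW P - 3 * ((n : ℝ) + 1)) := by
        apply E_delOp_le
        intro Y hY
        have h3 := size_of_mem_delOut X Y hY
        apply ENNReal.ofReal_le_ofReal
        rw [uu_update_small hP.1 hS]
        unfold WW
        have h4 : aP (update P Y) + 1 ≤ aP P := by rw [aP_update hP.1]; omega
        have h5 : (Miss (update P Y)).card ≤ (Miss P).card :=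
          Finset.card_le_card (miss_update_subset P Y)
        have h4' : (aP (update P Y) : ℝ) + 1 ≤ aP P := by exact_mod_cast h4
        have h5' : ((Miss (update P Y)).card : ℝ) ≤ (Miss P).card := by exact_mod_cast h5
        have h6 : 3 * ((n : ℝ) + 1) * ((aP (update P Y) : ℝ) + 1) ≤
            3 * ((n : ℝ) + 1) * aP P := by gcongr
        have h7 : 6 * (n : ℝ) * ((n : ℝ) + 1) * ((Miss (update P Y)).card : ℝ) ≤
            6 * (n : ℝ) * ((n : ℝ) + 1) * (Miss P).card := by gcongr
        linarith
      have := E_hvl_some_le X (fun Y => ENNReal.ofReal (uu T (update P Y)))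
        (WW P) (WW P - 3 * ((n : ℝ) + 1)) (WW P) (WW_nonneg P) (by linarith) (WW_nonneg P)
        (E_const_le _ _ _ fun Y _ => hle Y) hdel (E_const_le _ _ _ fun Y _ => hle Y)
      refine this.trans (ENNReal.ofReal_le_ofReal ?_)
      linarith
  apply step_bound hP.1 _ _ (fun Z => WW P + (if Z = Z0 then -((n : ℝ) + 1) else 0))
  · intro Z _
    split_ifs
    · linarith
    · have := WW_nonneg P; linarith
  · intro Z hZ
    by_cases h : Z = Z0
    · simp only [h, if_true]
      rw [← sub_eq_add_neg]
      exact hE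
    · simp only [h, if_false, add_zero]
      exact E_const_le _ _ _ fun Y _ => hle Y
  · rw [Finset.sum_add_distrib, Finset.sum_const, Finset.sum_ite_eq' P Z0, if_pos hZ0,
      nsmul_eq_mul]
    have hcard : (P.card : ℝ) ≤ n + 1 := by exact_mod_cast card_le hP
    linarith

/-! ## The main theorem -/

theorem good_singleton (X : Sol n) : Good {X} := by
  refine ⟨Finset.singleton_nonempty _, ?_⟩
  intro Y hY Z hZ _
  rw [Finset.mem_singleton] at hY hZ
  rw [hY, hZ]

theorem inv_step [NeZero n] (T : ℕ) (P : Finset (Sol n)) (hP : Good P ∧ aP P ≤ T)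
    (Q : Finset (Sol n)) (hQ : Q ∈ (step P).support) : Good Q ∧ aP Q ≤ T := by
  unfold step at hQ
  rw [dif_pos hP.1.1, PMF.mem_support_bind_iff] at hQ
  obtain ⟨X, _, hX⟩ := hQ
  rw [PMF.mem_support_map_iff] at hX
  obtain ⟨Y, _, rfl⟩ := hX
  refine ⟨good_update hP.1 Y, ?_⟩
  rw [aP_update hP.1.1]
  exact (min_le_left _ _).trans hP.2

theorem expTime_bound [NeZero n] (X : JTree n) :
    expTime {(some X : Sol n)} ≤ ENNReal.ofReal (uu X.numLeaves {(some X : Sol n)}) := by
  have ha : aP {(some X : Sol n)} = X.numLeaves := by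
    obtain ⟨Z, hZ, hZe⟩ := exists_bottom (good_singleton (some X : Sol n)).1
    rw [Finset.mem_singleton] at hZ
    rw [← hZe, hZ]
    rfl
  apply expTime_le (fun P => Good P ∧ aP P ≤ X.numLeaves)
    (fun Q => ENNReal.ofReal (uu X.numLeaves Q)) (inv_step X.numLeaves)
  · intro P hP hc
    rcases Nat.lt_or_ge (aP P) ((gg n) ^ 2) with h | h
    · exact drift_small _ hP.1 h hc
    · exact drift_large _ hP.1 hP.2 h
  · exact ⟨good_singleton _, ha.le⟩

theorem uu_singleton_le [NeZero n] (X : JTree n) :
    uu X.numLeaves {(some X : Sol n)} ≤ 8 * (X.numLeaves : ℝ) + 132 * (n : ℝ) ^ 5 := by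
  have hn : 1 ≤ n := Nat.pos_of_ne_zero (NeZero.ne n)
  have hn' : (1 : ℝ) ≤ n := by exact_mod_cast hn
  refine (uu_le_ub _ _).trans ?_
  have ha : aP {(some X : Sol n)} = X.numLeaves := by
    obtain ⟨Z, hZ, hZe⟩ := exists_bottom (good_singleton (some X : Sol n)).1
    rw [Finset.mem_singleton] at hZ
    rw [← hZe, hZ]
    rfl
  have hb : bP {(some X : Sol n)} = X.numLeaves := by
    obtain ⟨Z, hZ, _, hZe⟩ := exists_top (good_singleton (some X : Sol n))
    rw [Finset.mem_singleton] at hZ
    rw [← hZe, hZ]
    rfl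
  unfold ub
  rw [ha, hb, Nat.sub_self]
  set T : ℝ := (X.numLeaves : ℝ) with hT
  have hT0 : 0 ≤ T := by positivity
  have h1 : vg n X.numLeaves X.numLeaves 0 (fP {(some X : Sol n)}) ≤
      6 * T + KK n X.numLeaves * n := by
    unfold vg
    have h2 : VV n X.numLeaves 0 = 0 := by unfold VV; simp
    rw [h2]
    have h3 := KK_nonneg n X.numLeaves
    have h4 : (0 : ℝ) ≤ (fP {(some X : Sol n)} : ℕ) := by positivity
    have h5 : KK n X.numLeaves * ((n : ℝ) - (fP {(some X : Sol n)} : ℕ)) ≤
        KK n X.numLeaves * n := by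
      apply mul_le_mul_of_nonneg_left _ h3
      linarith
    linarith
  have h2 : KK n X.numLeaves * n = 3 / 2 * T + 6 * n ^ 2 * (n + 1) ^ 2 := by
    unfold KK gg
    push_cast
    rw [← hT]
    field_simp
    ring
  have h3 : MM n = 12 * n ^ 2 * (n + 1) ^ 3 + 6 * n ^ 2 * (n + 1) := by
    unfold MM gg
    push_cast
    ring
  rw [h3]
  have p1 : (n : ℝ) + 1 ≤ 2 * n := by linarith
  have p0 : (0 : ℝ) ≤ n + 1 := by linarith
  have q1 : ((n : ℝ) + 1) ^ 2 ≤ (2 * n) ^ 2 := pow_le_pow_left₀ p0 p1 2
  have q2 : ((n : ℝ) + 1) ^ 3 ≤ (2 * n) ^ 3 := pow_le_pow_left₀ p0 p1 3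
  have r1 : 6 * (n : ℝ) ^ 2 * (n + 1) ^ 2 ≤ 6 * n ^ 2 * (2 * n) ^ 2 := by gcongr
  have r2 : 12 * (n : ℝ) ^ 2 * (n + 1) ^ 3 ≤ 12 * n ^ 2 * (2 * n) ^ 3 := by gcongr
  have r3 : 6 * (n : ℝ) ^ 2 * (n + 1) ≤ 6 * n ^ 2 * (2 * n) := by gcongr
  have s1 : (n : ℝ) ^ 4 ≤ n ^ 5 := pow_le_pow_right₀ hn' (by norm_num)
  have s2 : (n : ℝ) ^ 3 ≤ n ^ 5 := pow_le_pow_right₀ hn' (by norm_num)
  nlinarith

theorem worstTime_le (n : ℕ) [NeZero n] (T : ℕ) :
    worstTime n T ≤ ENNReal.ofReal (8 * (T : ℝ) + 132 * (n : ℝ) ^ 5) := by
  unfold worstTime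
  apply iSup₂_le
  intro X hX
  subst hX
  exact (expTime_bound X).trans (ENNReal.ofReal_le_ofReal (uu_singleton_le X))


/-- For `k = 1` the worst-case expected optimization time of SMO-GP on ORDER is at most
`8 * T + 132 * n ^ 5`; consequently, along the parameter pairs `(m, m ^ 5)` it is
`o (m * T + m ^ 2 * log m)`, so the bound `O (n * T + n ^ 2 * log n)` is not tight. -/
theorem result :
    (∀ (n : ℕ) [NeZero n] (T : ℕ),
      worstTime n T ≤ ENNReal.ofReal (8 * (T : ℝ) + 132 * (n : ℝ) ^ 5)) ∧
    Tendsto (fun k : ℕ => worstTime (k + 1) ((k + 1) ^ 5) /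
      ENNReal.ofReal (((k + 1 : ℕ) : ℝ) * (((k + 1) ^ 5 : ℕ) : ℝ) +
        ((k + 1 : ℕ) : ℝ) ^ 2 * Real.log ((k + 1 : ℕ) : ℝ))) atTop (nhds 0) := by
  refine ⟨fun n _ T => worstTime_le n T, ?_⟩
  have hb : ∀ k : ℕ, worstTime (k + 1) ((k + 1) ^ 5) /
      ENNReal.ofReal (((k + 1 : ℕ) : ℝ) * (((k + 1) ^ 5 : ℕ) : ℝ) +
        ((k + 1 : ℕ) : ℝ) ^ 2 * Real.log ((k + 1 : ℕ) : ℝ)) ≤
      ENNReal.ofReal (140 * (1 / ((k : ℝ) + 1))) := by
    intro k
    have hm : (1 : ℝ) ≤ (k : ℝ) + 1 := by have : (0 : ℝ) ≤ k := by positivity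
                                          linarith
    have hlog : 0 ≤ Real.log ((k + 1 : ℕ) : ℝ) := Real.log_nonneg (by push_cast; exact hm)
    have h1 := worstTime_le (k + 1) ((k + 1) ^ 5)
    have h2 : (8 * (((k + 1) ^ 5 : ℕ) : ℝ) + 132 * ((k + 1 : ℕ) : ℝ) ^ 5) =
        140 * ((k : ℝ) + 1) ^ 5 := by
      push_cast
      ring
    rw [h2] at h1
    have h3 : ENNReal.ofReal (((k : ℝ) + 1) ^ 6) ≤
        ENNReal.ofReal (((k + 1 : ℕ) : ℝ) * (((k + 1) ^ 5 : ℕ) : ℝ) +
        ((k + 1 : ℕ) : ℝ) ^ 2 * Real.log ((k + 1 : ℕ) : ℝ)) := by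
      apply ENNReal.ofReal_le_ofReal
      have : 0 ≤ ((k + 1 : ℕ) : ℝ) ^ 2 * Real.log ((k + 1 : ℕ) : ℝ) := by positivity
      have e : ((k + 1 : ℕ) : ℝ) * (((k + 1) ^ 5 : ℕ) : ℝ) = ((k : ℝ) + 1) ^ 6 := by
        push_cast
        ring
      linarith
    calc _ ≤ ENNReal.ofReal (140 * ((k : ℝ) + 1) ^ 5) / ENNReal.ofReal (((k : ℝ) + 1) ^ 6) :=
          ENNReal.div_le_div h1 h3
      _ = ENNReal.ofReal (140 * (1 / ((k : ℝ) + 1))) := by
          rw [← ENNReal.ofReal_div_of_pos (by positivity)]
          congr 1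
          field_simp
  have hlim : Tendsto (fun k : ℕ => ENNReal.ofReal (140 * (1 / ((k : ℝ) + 1)))) atTop
      (nhds 0) := by
    have h1 : Tendsto (fun k : ℕ => 140 * (1 / ((k : ℝ) + 1))) atTop (nhds (140 * 0)) :=
      tendsto_one_div_add_atTop_nhds_zero_nat.const_mul 140
    rw [mul_zero] at h1
    have h2 := ENNReal.tendsto_ofReal h1
    rwa [ENNReal.ofReal_zero] at h2
  exact tendsto_of_tendsto_of_tendsto_of_le_of_le tendsto_const_nhds hlim
    (fun _ => bot_le) hb

end Pool.Agent.Results.MP_74c611_lc.SmoGpOrder
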